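import Mathlib
import Pool.Agent.H24.LSFinal

/-!
# Halvings of the middle layer: definitions

`K / F` is an extension of finite fields. `tw u W = u W` (from `Pool.Agent.H24.LS`),
`TS μ W` : `W` is totally singular for `B_μ (x, y) = Tr (μ x y)`,
`perp W` : orthogonal space for `Tr (x y)`.
-/

set_option autoImplicit false
set_option linter.unusedSectionVars false
set_option linter.unusedVariables false

open Module
open scoped Classical
open Pool.Agent.H24.LS

namespace Pool.Agent.H14.Halv

variable {F : Type} [Field F] [Finite F] {K : Type} [Field K] [Algebra F K] [Finite K]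

/-- `W` is totally singular for the symmetric bilinear form `B_μ (x, y) = Tr (μ x y)`. -/
def TS (F : Type) [Field F] {K : Type} [Field K] [Algebra F K] (μ : K) (W : Submodule F K) : Prop :=
  ∀ x ∈ W, ∀ y ∈ W, Algebra.trace F K (μ * (x * y)) = 0

/-- orthogonal space for the trace form -/
noncomputable def perp (W : Submodule F K) : Submodule F K where
  carrier := {x | ∀ w ∈ W, Algebra.trace F K (x * w) = 0}
  add_mem' := by
    intro a b ha hb w hw
    rw [add_mul, map_add, ha w hw, hb w hw, add_zero]
  zero_mem' := by
    intro w _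
    rw [zero_mul, map_zero]
  smul_mem' := by
    intro c x hx w hw
    rw [smul_mul_assoc, map_smul, hx w hw, smul_zero]

lemma mem_perp (W : Submodule F K) (x : K) :
    x ∈ perp W ↔ ∀ w ∈ W, Algebra.trace F K (x * w) = 0 := Iff.rfl

/-- the form `B_μ` as a bilinear form -/
noncomputable def Bf (μ : K) : LinearMap.BilinForm F K :=
  LinearMap.mk₂ F (fun x y => Algebra.trace F K (μ * (x * y)))
    (by intro a b c; rw [add_mul, mul_add, map_add])
    (by intro c a b; rw [smul_mul_assoc, mul_smul_comm, map_smul])
    (by intro a b c; rw [mul_add, mul_add, map_add])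
    (by intro c a b; rw [mul_smul_comm, mul_smul_comm, map_smul])

lemma Bf_apply (μ x y : K) : Bf (F := F) μ x y = Algebra.trace F K (μ * (x * y)) := rfl

lemma Bf_symm (μ : K) : (Bf (F := F) μ).IsSymm := by
  constructor
  intro x y
  rw [Bf_apply, Bf_apply, mul_comm x y]

lemma trace_nondeg (x : K) (h : ∀ y : K, Algebra.trace F K (x * y) = 0) : x = 0 := by

  have : FiniteDimensional F K := inferInstance
  have := (traceForm_nondegenerate F K).1 x
  apply this
  intro y
  exact h y

lemma Bf_nondeg {μ : K} (hμ : μ ≠ 0) : (Bf (F := F) μ).Nondegenerate := by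
  have key : ∀ x : K, (∀ y : K, Algebra.trace F K (μ * (x * y)) = 0) → x = 0 := by
    intro x hx
    have h1 : μ * x = 0 := trace_nondeg (F := F) (μ * x) (fun y => by rw [mul_assoc]; exact hx y)
    rcases mul_eq_zero.1 h1 with h | h
    · exact absurd h hμ
    · exact h
  constructor
  · intro x hx
    exact key x (fun y => hx y)
  · intro x hx
    apply key x
    intro y
    have := hx y
    rw [Bf_apply, mul_comm y x] at this
    exact this

lemma perp_eq (W : Submodule F K) : perp W = (Bf (F := F) (1 : K)).orthogonal W := by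
  ext x
  rw [mem_perp, LinearMap.BilinForm.mem_orthogonal_iff]
  constructor
  · intro h w hw
    show Bf (F := F) (1 : K) w x = 0
    rw [Bf_apply, one_mul, mul_comm]
    exact h w hw
  · intro h w hw
    have := h w hw
    have h2 : Bf (F := F) (1 : K) w x = 0 := this
    rw [Bf_apply, one_mul, mul_comm] at h2
    exact h2

lemma finrank_perp (W : Submodule F K) : finrank F (perp W) + finrank F W = finrank F K := by
  have : FiniteDimensional F K := inferInstance
  rw [perp_eq, LinearMap.BilinForm.finrank_orthogonal (Bf_nondeg one_ne_zero)]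
  have := Submodule.finrank_le W
  omega

lemma perp_perp (W : Submodule F K) : perp (perp W) = W := by
  have : FiniteDimensional F K := inferInstance
  rw [perp_eq, perp_eq]
  exact LinearMap.BilinForm.orthogonal_orthogonal (Bf_nondeg one_ne_zero)
    (Bf_symm (F := F) (1 : K)).isRefl W

lemma mem_tw_mul (u : Kˣ) (W : Submodule F K) (x : K) : (u : K) * x ∈ tw u W ↔ x ∈ W := by
  rw [mem_tw, ← mul_assoc, Units.inv_mul, one_mul]

lemma perp_tw (u : Kˣ) (W : Submodule F K) : perp (tw u W) = tw u⁻¹ (perp W) := by
  ext x
  rw [mem_perp, mem_tw, inv_inv, mem_perp]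
  constructor
  · intro h w hw
    have := h ((u : K) * w) ((mem_tw_mul u W w).2 hw)
    have e : (u : K) * x * w = x * ((u : K) * w) := by ring
    rw [e]
    exact this
  · intro h w hw
    rw [mem_tw] at hw
    have := h _ hw
    have e : (u : K) * x * (((u⁻¹ : Kˣ) : K) * w) = x * w := by
      have : (u : K) * ((u⁻¹ : Kˣ) : K) = 1 := Units.mul_inv u
      calc (u : K) * x * (((u⁻¹ : Kˣ) : K) * w) = ((u : K) * ((u⁻¹ : Kˣ) : K)) * (x * w) := by ring
        _ = x * w := by rw [this, one_mul]
    rw [e] at this
    exact this

/-- for `W` of half dimension: totally singular for `B_μ` iff `μ W = W^⊥` -/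
lemma TS_iff {k : ℕ} (hK : finrank F K = 2 * k) (μ : Kˣ) (W : Submodule F K)
    (hW : finrank F W = k) : TS F (μ : K) W ↔ tw μ W = perp W := by
  have : FiniteDimensional F K := inferInstance
  constructor
  · intro h
    have hle : tw μ W ≤ perp W := by
      intro x hx w hw
      rw [mem_tw] at hx
      have := h _ hx w hw
      have e : (μ : K) * (((μ⁻¹ : Kˣ) : K) * x * w) = x * w := by
        have : (μ : K) * ((μ⁻¹ : Kˣ) : K) = 1 := Units.mul_inv μ
        calc (μ : K) * (((μ⁻¹ : Kˣ) : K) * x * w) = ((μ : K) * ((μ⁻¹ : Kˣ) : K)) * (x * w) := by ring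
          _ = x * w := by rw [this, one_mul]
      rw [e] at this
      exact this
    apply Submodule.eq_of_le_of_finrank_eq hle
    have := finrank_perp W
    rw [finrank_tw]
    omega
  · intro h x hx y hy
    have h1 : (μ : K) * x ∈ tw μ W := (mem_tw_mul μ W x).2 hx
    rw [h] at h1
    have := h1 y hy
    rw [mul_assoc] at this
    exact this

end Pool.Agent.H14.Halv
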