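import Mathlib
import Pool.Agent.H14.Halv.Defs

/-!
# [H14 DISC] Discriminants: two multipliers with totally singular half-dimensional spaces

`K/F` finite fields of odd order, `[K:F] = 2k`. If `B_μ` and `B_μ'` both have a totally singular
`k`-space then `μ/μ'` is a square in `Kˣ`.

PROOF. For `μ : K` and a basis `b` of `K/F` indexed by `Fin k ⊕ Fin k` let `G_μ` be the Gram matrix
`(Tr (μ b_i b_j))`.
(1) If `W` is t.s. for `B_μ`, `dim W = k`, choose `b` such that its first half is a basis of `W`
(`Submodule.exists_isCompl`, `Submodule.prodEquivOfIsCompl`, bases of `W` and of the complement by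
`Module.finBasisOfFinrankEq`, `Basis.prod`). Then `G_μ = fromBlocks 0 A Aᵀ D`, and multiplying with
the block swap `fromBlocks 0 1 1 0` gives `fromBlocks A 0 D Aᵀ`, so
`det G_μ * det (fromBlocks 0 1 1 0) = (det A)^2` where the block swap determinant
`ε = det (fromBlocks 0 1 1 0)` satisfies `ε ^ 2 = 1` (its square is the identity) and only
depends on `k`.
(2) For another basis `b'`, the Gram matrix changes by `Pᵀ G P` (`LinearMap.BilinForm.toMatrix`
lemmas or `Matrix` computation), so the determinant changes by `(det P)^2`, `det P ≠ 0`.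
(3) In one fixed basis, `G_μ = (matrix of multiplication by μ/μ')ᵀ * G_μ'` (up to order/transposes),
since `Tr (μ x y) = Tr (μ' ((μ/μ') x) y)`; so `det G_μ = N(μ/μ') det G_μ'`, `N = Algebra.norm F`
(`Algebra.norm_eq_matrix_det`, `Algebra.leftMulMatrix`), and `det G_μ' ≠ 0` (nondegenerate:
`Bf_nondeg`; or avoid this as `N(μ/μ') ≠ 0`, see below).
Together `N (μ/μ')` is a nonzero square in `F`: `det G_μ ε = square`, `det G_μ' ε = nonzero square`.
(4) In finite fields `N x = x ^ ((q^{2k} - 1)/(q - 1))` (`FiniteField.algebraMap_norm_eq_pow` or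
similar; or `Algebra.norm_eq_prod_automorphisms` + Frobenius). A square `N x = c^2` in `F` gives
`1 = (N x)^{(q-1)/2} = x^{(q^{2k}-1)/2}`, so `x` is a square in `K` (`FiniteField.isSquare_iff`).
(Alternatively: if `x` were a nonsquare generator power ... any proof is fine.)
-/

set_option autoImplicit false
set_option linter.unusedSectionVars false
set_option linter.unusedVariables false
set_option linter.style.haveILetI false

open Module
open scoped Classical
open Pool.Agent.H24.LS

namespace Pool.Agent.H14.Halv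

variable {F : Type} [Field F] [Finite F] {K : Type} [Field K] [Algebra F K] [Finite K]

/-- a basis adapted to a totally singular subspace -/
lemma exists_adapted {k : ℕ} (hK : finrank F K = 2 * k) (μ : K) (W : Submodule F K)
    (hW : finrank F W = k) (h : TS F μ W) :
    ∃ (b : Basis (Fin k ⊕ Fin k) F K) (a : F),
      (LinearMap.BilinForm.toMatrix b (Bf (F := F) μ)).det *
        (Matrix.fromBlocks 0 1 1 0 : Matrix (Fin k ⊕ Fin k) (Fin k ⊕ Fin k) F).det = a ^ 2 := by
  obtain ⟨C, hC⟩ := W.exists_isCompl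
  have hCk : finrank F C = k := by
    have := Submodule.finrank_add_eq_of_isCompl hC
    omega
  let b1 := finBasisOfFinrankEq F W hW
  let b2 := finBasisOfFinrankEq F C hCk
  let b := (b1.prod b2).map (Submodule.prodEquivOfIsCompl W C hC)
  have hbl : ∀ i, b (Sum.inl i) = (b1 i : K) := by
    intro i
    show (Submodule.prodEquivOfIsCompl W C hC) ((b1.prod b2) (Sum.inl i)) = (b1 i : K)
    rw [Submodule.coe_prodEquivOfIsCompl', Basis.prod_apply_inl_fst, Basis.prod_apply_inl_snd]
    simp
  set M := LinearMap.BilinForm.toMatrix b (Bf (F := F) μ) with hM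
  have hMa : ∀ i j, M i j = Algebra.trace F K (μ * (b i * b j)) := by
    intro i j
    rw [hM, LinearMap.BilinForm.toMatrix_apply, Bf_apply]
  have h11 : M.toBlocks₁₁ = 0 := by
    ext i j
    show M (Sum.inl i) (Sum.inl j) = 0
    rw [hMa, hbl, hbl]
    exact h _ (b1 i).2 _ (b1 j).2
  have h21 : M.toBlocks₂₁ = M.toBlocks₁₂.transpose := by
    ext i j
    show M (Sum.inr i) (Sum.inl j) = M (Sum.inl j) (Sum.inr i)
    rw [hMa, hMa, mul_comm (b (Sum.inr i))]
  have hMb : M = Matrix.fromBlocks 0 M.toBlocks₁₂ M.toBlocks₁₂.transpose M.toBlocks₂₂ := by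
    conv_lhs => rw [← Matrix.fromBlocks_toBlocks M, h11, h21]
  refine ⟨b, M.toBlocks₁₂.det, ?_⟩
  rw [← hM, hMb, ← Matrix.det_mul, Matrix.fromBlocks_multiply]
  simp only [Matrix.zero_mul, Matrix.mul_zero, Matrix.mul_one, zero_add, add_zero,
    Matrix.toBlocks_fromBlocks₁₂]
  rw [Matrix.det_fromBlocks_zero₁₂, Matrix.det_transpose, sq]

theorem isSquare_of_TS {k : ℕ} (hq : Odd (Nat.card F)) (hK : finrank F K = 2 * k) (μ μ' : Kˣ)
    (W W' : Submodule F K) (hW : finrank F W = k) (hW' : finrank F W' = k)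
    (h : TS F (μ : K) W) (h' : TS F (μ' : K) W') : IsSquare (μ * μ'⁻¹) := by
  obtain ⟨b, a, hb⟩ := exists_adapted hK (μ : K) W hW h
  obtain ⟨b', a', hb'⟩ := exists_adapted hK (μ' : K) W' hW' h'
  set ε := (Matrix.fromBlocks 0 1 1 0 : Matrix (Fin k ⊕ Fin k) (Fin k ⊕ Fin k) F).det with hε
  set ν : Kˣ := μ * μ'⁻¹ with hν
  have hεε : ε * ε = 1 := by
    rw [hε, ← Matrix.det_mul, Matrix.fromBlocks_multiply]
    simp
  have hε0 : ε ≠ 0 := by
    intro h0
    rw [h0, zero_mul] at hεε
    exact zero_ne_one hεε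
  -- change of basis
  have h2 := LinearMap.BilinForm.toMatrix_mul_basis_toMatrix b' b (Bf (F := F) (μ' : K))
  have h2' := congrArg Matrix.det h2
  rw [Matrix.det_mul, Matrix.det_mul, Matrix.det_transpose] at h2'
  -- norm
  have h3 : Bf (F := F) (μ : K) = (Bf (F := F) (μ' : K)).compLeft (Algebra.lmul F K (ν : K)) := by
    ext x y
    rw [LinearMap.BilinForm.compLeft_apply, Bf_apply, Bf_apply]
    congr 1
    have h4 : (μ : K) = (μ' : K) * (ν : K) := by
      rw [hν, Units.val_mul, mul_comm, mul_assoc, Units.inv_mul, mul_one]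
    rw [h4]
    show (μ' : K) * (ν : K) * (x * y) = (μ' : K) * ((ν : K) * x * y)
    ring
  have h5 := congrArg (fun B => (LinearMap.BilinForm.toMatrix b B).det) h3
  simp only [LinearMap.BilinForm.toMatrix_compLeft, Matrix.det_mul, Matrix.det_transpose,
    LinearMap.det_toMatrix, ← Algebra.norm_apply] at h5
  have hnd : (LinearMap.BilinForm.toMatrix b (Bf (F := F) (μ' : K))).det ≠ 0 :=
    (LinearMap.BilinForm.nondegenerate_iff_det_ne_zero b).1 (Bf_nondeg μ'.ne_zero)
  have hnd' : (LinearMap.BilinForm.toMatrix b' (Bf (F := F) (μ' : K))).det ≠ 0 :=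
    (LinearMap.BilinForm.nondegenerate_iff_det_ne_zero b').1 (Bf_nondeg μ'.ne_zero)
  set P := (b'.toMatrix b).det with hP
  have hP0 : P ≠ 0 := by
    intro h0
    rw [h0, zero_mul, zero_mul] at h2'
    exact hnd h2'.symm
  have ha' : a' ≠ 0 := by
    intro h0
    rw [h0] at hb'
    have : (LinearMap.BilinForm.toMatrix b' (Bf (F := F) (μ' : K))).det * ε ≠ 0 := mul_ne_zero hnd' hε0
    exact this (by rw [hb']; ring)
  have hN : Algebra.norm F (ν : K) = (a / (P * a')) ^ 2 := by
    have h6 : a ^ 2 = Algebra.norm F (ν : K) * (P * a') ^ 2 := by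
      rw [← hb, h5, ← h2', mul_pow, ← hb']
      ring
    rw [div_pow, h6, mul_div_assoc, div_self (pow_ne_zero 2 (mul_ne_zero hP0 ha')), mul_one]
  set c := a / (P * a') with hc
  have hN0 : Algebra.norm F (ν : K) ≠ 0 := by
    rw [Ne, Algebra.norm_eq_zero_iff]
    exact ν.ne_zero
  have hc0 : c ≠ 0 := by
    intro h0
    rw [h0] at hN
    exact hN0 (by rw [hN]; ring)
  -- finite fields
  have fK : Fintype K := Fintype.ofFinite K
  have fF : Fintype F := Fintype.ofFinite F
  have hKF : Nat.card K = Nat.card F ^ (2 * k) := by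
    rw [Module.natCard_eq_pow_finrank (K := F), hK]
  have hKo : Odd (Nat.card K) := by
    rw [hKF]
    exact hq.pow
  have hch : ringChar K ≠ 2 := by
    intro h0
    rw [FiniteField.even_card_iff_char_two, ← Nat.card_eq_fintype_card] at h0
    rw [Nat.odd_iff] at hKo
    omega
  rw [FiniteField.unit_isSquare_iff hch, ← Nat.card_eq_fintype_card]
  set q := Nat.card F with hqd
  set Q := Nat.card K with hQd
  have hq2 : 2 ≤ q := Finite.one_lt_card
  obtain ⟨r, hr⟩ := hq
  have hr0 : 0 < r := by omega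
  have hdvd : q - 1 ∣ Q - 1 := by
    rw [hKF]
    have := Nat.sub_dvd_pow_sub_pow q 1 (2 * k)
    rwa [one_pow] at this
  obtain ⟨s, hs⟩ := hdvd
  have hq1 : q - 1 = 2 * r := by omega
  have e1 : (Q - 1) / (q - 1) = s := by
    rw [hs]
    exact Nat.mul_div_cancel_left s (by omega)
  have e2 : Q / 2 = s * r := by
    rw [hq1] at hs
    obtain ⟨t, ht⟩ := hKo
    have : Q - 1 = 2 * (s * r) := by rw [hs]; ring
    omega
  have h7 := FiniteField.algebraMap_norm_eq_pow (K := F) (K' := K) (x := (ν : K))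
  rw [e1, hN] at h7
  rw [e2, pow_mul]
  ext
  rw [Units.val_pow_eq_pow_val, Units.val_pow_eq_pow_val, ← h7, ← map_pow, ← pow_mul, ← hq1,
    Units.val_one]
  have h8 : c ^ (q - 1) = 1 := by
    rw [hqd, Nat.card_eq_fintype_card]
    exact FiniteField.pow_card_sub_one_eq_one c hc0
  rw [h8, map_one]

end Pool.Agent.H14.Halv
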