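import Mathlib
import Pool.Agent.H14.Halv.Disc

/-!
# [H14 BASE] Base points: a t.s. half-dimensional space `X μ` depending only on `μ K₁ˣ`

`K/F` finite fields of odd order, `[K:F] = 2k`. Let `K₁` be the intermediate
field of degree `k` over `F` (the fixed field of `x ↦ x^{q^k}`, or `{x | x^{q^k} = x}`); every
intermediate field `S` with `[S:F] ∣ k` is contained in it (`|S| = q^d`, `x^{q^d} = x` implies
`x^{q^k} = x`). The claim: there is `X : Kˣ → Submodule F K` such that
(i) if `B_μ` has a t.s. `k`-space then `X μ` is one, (ii) `X v = X μ` if `v/μ ∈ S`.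

PROOF. Write `σ x = x^{q^k}` (an `F`-algebra automorphism of `K`, `σ² = 1`, fixed field `K₁`).
(1) `∃ δ : Kˣ, σ δ = -δ`: `x ↦ σ x - x` is not zero (as `K ≠ K₁`), take `δ = σ x - x ≠ 0`; then
`σ δ = x - σ x = -δ`.
(2) For `μ, x : Kˣ` with `σ (μ x²) = - μ x²`, the space `K₁ x` (as an `F`-subspace, dimension
`[K₁:F] = k`) is t.s. for `B_μ`: `Tr (μ (a x) (b x)) = Tr (c)` with `c = a b μ x²`, `σ c = -c`, and
`Tr c = Tr (σ c) = - Tr c` so `2 Tr c = 0`, `Tr c = 0` (`q` odd; `Algebra.trace_eq_of_algEquiv`).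
(3) Put `Z μ = {x : Kˣ | σ (μ x²) = - μ x²}`; it depends only on `μ K₁ˣ` (indeed if `v = μ a`,
`σ a = a ≠ 0`, then `Z v = Z μ`). Put `X μ = K₁ x` for a `Classical.choose`n element `x` of `Z μ`,
the choice being a function of the SET `Z μ` (define `g : Set Kˣ → Submodule F K` by
`if h : Z.Nonempty then K₁ h.some else ⊥` and `X μ = g (Z μ)`). This gives (ii).
(4) For (i) we need `Z μ` nonempty. By (1), `Z δ ∋ 1`, so `K₁` is t.s. for `B_δ`; if `W` is a t.s.
`k`-space for `B_μ` then `μ δ⁻¹ = ν²` by `isSquare_of_TS` (file `Disc.lean`), so `x = ν⁻¹` satisfies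
`μ x² = δ`, i.e. `x ∈ Z μ`.

(`k ≥ 1`; for `k = 0` the hypothesis `finrank F K = 2 * k` is contradictory.)
-/

set_option autoImplicit false
set_option linter.unusedSectionVars false
set_option linter.unusedVariables false
set_option linter.style.haveILetI false

open Module
open scoped Classical
open Pool.Agent.H24.LS

namespace Pool.Agent.H14.Halv

variable {F : Type} [Field F] [Finite F] {K : Type} [Field K] [Algebra F K] [Finite K]

lemma exists_sigma {k : ℕ} (hK : finrank F K = 2 * k) :
    ∃ σ : K ≃ₐ[F] K, (∀ x, σ x = x ^ (Nat.card F ^ k)) ∧ orderOf σ = 2 := by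
  have : Fintype F := Fintype.ofFinite F
  have : FiniteDimensional F K := inferInstance
  have hpos : 0 < finrank F K := finrank_pos
  have hk : 0 < k := by omega
  refine ⟨(FiniteField.frobeniusAlgEquivOfAlgebraic F K) ^ k, ?_, ?_⟩
  · intro x
    rw [AlgEquiv.coe_pow, FiniteField.coe_frobeniusAlgEquivOfAlgebraic_iterate,
      Nat.card_eq_fintype_card]
  · rw [orderOf_pow_of_dvd hk.ne', FiniteField.orderOf_frobeniusAlgEquivOfAlgebraic, hK,
      Nat.mul_div_cancel _ hk]
    rw [FiniteField.orderOf_frobeniusAlgEquivOfAlgebraic, hK]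
    exact Dvd.intro_left 2 rfl

/-- the fixed space of `σ` -/
noncomputable def fixS (σ : K ≃ₐ[F] K) : Submodule F K where
  carrier := {x | σ x = x}
  add_mem' := by
    intro a b ha hb
    show σ (a + b) = a + b
    rw [map_add, ha, hb]
  zero_mem' := map_zero σ
  smul_mem' := by
    intro c x hx
    show σ (c • x) = c • x
    rw [map_smul, hx]

lemma mem_fixS (σ : K ≃ₐ[F] K) (x : K) : x ∈ fixS σ ↔ σ x = x := Iff.rfl

lemma finrank_fixS {k : ℕ} (hK : finrank F K = 2 * k) (σ : K ≃ₐ[F] K) (hσ : orderOf σ = 2) :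
    finrank F (fixS σ) = k := by
  have : FiniteDimensional F K := inferInstance
  have e : fixS σ =
      (IntermediateField.fixedField (Subgroup.zpowers σ)).toSubalgebra.toSubmodule := by
    ext x
    rw [mem_fixS]
    constructor
    · intro hx
      show x ∈ IntermediateField.fixedField (Subgroup.zpowers σ)
      rw [IntermediateField.mem_fixedField_iff]
      intro f hf
      have : Subgroup.zpowers σ ≤ MulAction.stabilizer (K ≃ₐ[F] K) x := by
        rw [Subgroup.zpowers_le]
        exact hx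
      exact this hf
    · intro hx
      have hx' : x ∈ IntermediateField.fixedField (Subgroup.zpowers σ) := hx
      rw [IntermediateField.mem_fixedField_iff] at hx'
      exact hx' σ (Subgroup.mem_zpowers σ)
  have h2 : finrank (IntermediateField.fixedField (Subgroup.zpowers σ)) K = 2 := by
    rw [IntermediateField.finrank_fixedField_eq_card, Nat.card_zpowers, hσ]
  have h3 : finrank F (IntermediateField.fixedField (Subgroup.zpowers σ)) *
      finrank (IntermediateField.fixedField (Subgroup.zpowers σ)) K = finrank F K :=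
    finrank_mul_finrank _ _ _
  rw [h2, hK] at h3
  have h4 : finrank F (IntermediateField.fixedField (Subgroup.zpowers σ)) = k := by omega
  rw [e]
  exact h4

theorem exists_base {k : ℕ} (hq : Odd (Nat.card F)) (hK : finrank F K = 2 * k) :
    ∃ X : Kˣ → Submodule F K,
      (∀ (μ : Kˣ) (W : Submodule F K), finrank F W = k → TS F (μ : K) W →
        finrank F (X μ) = k ∧ TS F (μ : K) (X μ)) ∧
      (∀ S : IntermediateField F K, finrank F S ∣ k → ∀ μ v : Kˣ,
        (v : K) * ((μ⁻¹ : Kˣ) : K) ∈ S → X v = X μ) := by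
  obtain ⟨σ, hσ, hord⟩ := exists_sigma (F := F) (K := K) hK
  have : FiniteDimensional F K := inferInstance
  have hinv : ∀ x, σ (σ x) = x := by
    intro x
    have h : σ ^ 2 = 1 := by rw [← hord]; exact pow_orderOf_eq_one σ
    have := DFunLike.congr_fun h x
    rw [pow_two] at this
    exact this
  have hne : ∃ x, σ x ≠ x := by
    by_contra hcon
    push Not at hcon
    have : σ = 1 := AlgEquiv.ext hcon
    rw [this, orderOf_one] at hord
    omega
  -- 2 ≠ 0
  have h2F : (2 : F) ≠ 0 := by
    have : Fintype F := Fintype.ofFinite F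
    intro h
    have hchar : ringChar F ≠ 2 := by
      intro h2
      rw [Nat.card_eq_fintype_card] at hq
      have := (FiniteField.even_card_iff_char_two (F := F)).1 h2
      exact (Nat.not_even_iff_odd.2 hq) (Nat.even_iff.2 this)
    exact Ring.two_ne_zero hchar h
  obtain ⟨δ, hδ⟩ : ∃ δ : Kˣ, σ (δ : K) = -(δ : K) := by
    obtain ⟨x, hx⟩ := hne
    refine ⟨Units.mk0 (σ x - x) (sub_ne_zero.2 hx), ?_⟩
    show σ (σ x - x) = -(σ x - x)
    rw [map_sub, hinv]
    ring
  -- trace of anti-invariant elements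
  have htr : ∀ c : K, σ c = -c → Algebra.trace F K c = 0 := by
    intro c hc
    have h1 : Algebra.trace F K (σ c) = Algebra.trace F K c := Algebra.trace_eq_of_algEquiv σ c
    rw [hc, map_neg] at h1
    have h3 : (2 : F) * Algebra.trace F K c = 0 := by linear_combination -h1
    rcases mul_eq_zero.1 h3 with h | h
    · exact absurd h h2F
    · exact h
  let Z : Kˣ → Set Kˣ := fun μ => {x : Kˣ | σ ((μ : K) * (x : K) ^ 2) = -((μ : K) * (x : K) ^ 2)}
  let g : Set Kˣ → Submodule F K := fun A =>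
    if h : A.Nonempty then tw h.some (fixS σ) else ⊥
  have hTS : ∀ (μ x : Kˣ), x ∈ Z μ → TS F (μ : K) (tw x (fixS σ)) := by
    intro μ x hx a ha b hb
    have hx' : σ ((μ : K) * (x : K) ^ 2) = -((μ : K) * (x : K) ^ 2) := hx
    rw [mem_tw, mem_fixS] at ha hb
    apply htr
    have ex : (x : K) * ((x⁻¹ : Kˣ) : K) = 1 := Units.mul_inv x
    have e : (μ : K) * (a * b) =
        ((μ : K) * (x : K) ^ 2) * (((x⁻¹ : Kˣ) : K) * a) * (((x⁻¹ : Kˣ) : K) * b) := by
      calc (μ : K) * (a * b) = ((x : K) * ((x⁻¹ : Kˣ) : K)) ^ 2 * ((μ : K) * (a * b)) := by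
            rw [ex]; ring
        _ = _ := by ring
    rw [e, map_mul, map_mul, ha, hb, hx']
    ring
  refine ⟨fun μ => g (Z μ), ?_, ?_⟩
  · intro μ W hW hT
    have h1 : (1 : Kˣ) ∈ Z δ := by
      show σ ((δ : K) * ((1 : Kˣ) : K) ^ 2) = -((δ : K) * ((1 : Kˣ) : K) ^ 2)
      rw [Units.val_one, one_pow, mul_one]
      exact hδ
    have h2 := hTS δ 1 h1
    have h3 : finrank F (tw 1 (fixS σ)) = k := by
      rw [finrank_tw]; exact finrank_fixS hK σ hord
    obtain ⟨ν, hν⟩ := isSquare_of_TS hq hK μ δ W (tw 1 (fixS σ)) hW h3 hT h2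
    have hne : (Z μ).Nonempty := by
      refine ⟨ν⁻¹, ?_⟩
      show σ ((μ : K) * ((ν⁻¹ : Kˣ) : K) ^ 2) = -((μ : K) * ((ν⁻¹ : Kˣ) : K) ^ 2)
      have e : μ * ν⁻¹ ^ 2 = δ := by
        have : μ = ν * ν * δ := by rw [← hν, inv_mul_cancel_right]
        rw [this]
        have : ν * ν * δ * ν⁻¹ ^ 2 = (ν * ν⁻¹) * (ν * ν⁻¹) * δ := by
          rw [pow_two]
          rw [mul_mul_mul_comm ν ν⁻¹ ν ν⁻¹]
          rw [mul_assoc (ν * ν) δ, mul_comm δ, mul_assoc (ν * ν)]
        rw [this, mul_inv_cancel, one_mul, one_mul]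
      have e' : (μ : K) * ((ν⁻¹ : Kˣ) : K) ^ 2 = (δ : K) := by
        rw [← e, Units.val_mul, Units.val_pow_eq_pow_val]
      rw [e']
      exact hδ
    have hg : g (Z μ) = tw hne.some (fixS σ) := dif_pos hne
    show finrank F (g (Z μ)) = k ∧ TS F (μ : K) (g (Z μ))
    rw [hg]
    refine ⟨?_, hTS μ _ hne.some_mem⟩
    rw [finrank_tw]; exact finrank_fixS hK σ hord
  · intro S hS μ v hv
    have hfix : ∀ a : K, a ∈ S → σ a = a := by
      intro a ha
      rw [hσ]
      obtain ⟨m, hm⟩ := hS
      have : Finite S := inferInstance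
      have : Fintype S := Fintype.ofFinite S
      have hcard : Nat.card F ^ k = Fintype.card S ^ m := by
        conv_lhs => rw [hm]
        rw [pow_mul, ← Nat.card_eq_fintype_card (α := S),
          Module.natCard_eq_pow_finrank (K := F) (V := S)]
      rw [hcard]
      have := FiniteField.pow_card_pow m (⟨a, ha⟩ : S)
      have := congrArg (Subtype.val) this
      simpa using this
    have hZ : Z v = Z μ := by
      have ha := hfix _ hv
      have hvm : (v : K) = (v : K) * ((μ⁻¹ : Kˣ) : K) * (μ : K) := by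
        rw [mul_assoc, Units.inv_mul, mul_one]
      set a : K := (v : K) * ((μ⁻¹ : Kˣ) : K) with ha_def
      have ha0 : a ≠ 0 := by
        rw [ha_def]
        exact mul_ne_zero (Units.ne_zero _) (Units.ne_zero _)
      ext x
      show σ ((v : K) * (x : K) ^ 2) = -((v : K) * (x : K) ^ 2) ↔
        σ ((μ : K) * (x : K) ^ 2) = -((μ : K) * (x : K) ^ 2)
      have e1 : σ ((v : K) * (x : K) ^ 2) = a * σ ((μ : K) * (x : K) ^ 2) := by
        rw [hvm, mul_assoc, map_mul, ha]
      have e2 : -((v : K) * (x : K) ^ 2) = a * -((μ : K) * (x : K) ^ 2) := by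
        rw [hvm]; ring
      rw [e1, e2]
      constructor
      · intro h; exact mul_left_cancel₀ ha0 h
      · intro h; rw [h]
    show g (Z v) = g (Z μ)
    rw [hZ]

end Pool.Agent.H14.Halv
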