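import Mathlib
import Pool.Agent.H24.LSFinal

/-!
# The recursion for `t = 2`, `k` odd, `v ≡ 2 (mod 2^l)`

Only the middle roots `(2, 2^n + 1, 2^(n+1) + 2)` are needed.
-/

set_option autoImplicit false
set_option linter.unusedSectionVars false
set_option linter.unusedVariables false
set_option linter.style.haveILetI false

open Module
open scoped Classical
open Pool.Agent.H24.LS

namespace Pool.Agent.H14.Halv

variable {F : Type} [Field F] [Finite F]

/-- strength `2` (i.e. `t = 1`), all admissible parameters -/
theorem L_two (hq : Odd (Nat.card F)) (v k l : ℕ) (h1 : 1 ≤ v % 2 ^ l) (h2 : v % 2 ^ l < k % 2 ^ l) :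
    L F 2 k v := by
  refine reduce hq 1 ?_ v k l h1 h2
  intro n j hj hn
  have hj0 : j = 0 := by omega
  subst hj0
  rw [add_zero] at hn ⊢
  have hn0 : n ≠ 0 := by
    rintro rfl
    simp at hn
  apply L.singer (pow_pos (by norm_num) n)
  · rw [Nat.coprime_iff_gcd_eq_one]
    have : 2 ^ (n + 1) + 1 = 1 + 2 ^ n * 2 := by ring
    rw [this, Nat.gcd_add_mul_left_right, Nat.gcd_one_right]
  · have : 2 ^ (n + 1) + 1 = 2 * 2 ^ n + 1 := by ring
    rw [this]
    exact odd_two_mul_add_one _
  · rw [g_even_iff hq]
    apply choose_even_of_mod (n + 1)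
    have hp : 2 ^ n < 2 ^ (n + 1) := Nat.pow_lt_pow_right (by norm_num) (by omega)
    have hp1 : 1 < 2 ^ (n + 1) := lt_trans hn hp
    rw [Nat.add_mod_left, Nat.mod_eq_of_lt hp1, Nat.mod_eq_of_lt hp]
    exact hn

/-- The case `v = m 2^l + 2`, `m ≥ 2`, `k` odd, from smaller ones. -/
theorem odd_block (hq : Odd (Nat.card F)) (l m k : ℕ) (hl : 2 ≤ l) (hm : 2 ≤ m) (hko : Odd k)
    (hk : 2 < k % 2 ^ l)
    (ih : ∀ v', v' < m * 2 ^ l + 2 → ∀ k' l', 2 ≤ l' → v' % 2 ^ l' = 2 → Odd k' →
      2 < k' % 2 ^ l' → L F 3 k' v') : L F 3 k (m * 2 ^ l + 2) := by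
  obtain ⟨κ, hκ⟩ : ∃ κ, κ = k % 2 ^ l := ⟨_, rfl⟩
  obtain ⟨a, ha⟩ : ∃ a, a = 2 ^ l := ⟨_, rfl⟩
  have hapos : 0 < a := ha ▸ pow_pos (by norm_num) l
  have hκa : κ < a := by rw [hκ, ha]; exact Nat.mod_lt _ (pow_pos (by norm_num) l)
  have htκ : 2 < κ := hκ ▸ hk
  have haev : Even a := by
    rw [ha, Nat.even_pow]
    exact ⟨even_two, by omega⟩
  obtain ⟨r, hr⟩ : ∃ r, m = r + 2 := ⟨m - 2, by omega⟩
  have hma : m * 2 ^ l + 2 = a + (r + 1) * a + 2 := by rw [hr, ← ha]; ring
  have hkmod : k % a = κ := by rw [hκ, ha]
  obtain ⟨c, hc⟩ : ∃ c, k = c * a + κ := ⟨k / a, by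
    have := Nat.div_add_mod k a
    rw [hkmod] at this
    rw [mul_comm]
    omega⟩
  have hκo : Odd κ := by
    rw [hc] at hko
    rcases Nat.even_or_odd κ with h | h
    · exact absurd hko (Nat.not_odd_iff_even.2 ((haev.mul_left c).add h))
    · exact h
  rw [hma] at ih ⊢
  -- main instance used: `(k', (r+1) a + 2)` with `k'` odd and `2 < k' % a`
  have hB : ∀ k', Odd k' → 2 < k' % a → L F 3 k' ((r + 1) * a + 2) := by
    intro k' hko' hk'
    apply ih _ (by omega) k' l hl
    · rw [← ha, Nat.mul_add_mod' , Nat.mod_eq_of_lt (by omega)]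
    · exact hko'
    · rw [← ha]
      exact hk'
  have hA : L F 3 κ (a + 2) := by
    have h1 : (a + 2) % a = 2 := by rw [Nat.add_mod_left, Nat.mod_eq_of_lt (by omega)]
    apply ih _ (by
      have : 0 < (r + 1) * a := Nat.mul_pos (by omega) hapos
      omega) κ l hl
    · rw [← ha, h1]
    · exact hκo
    · rw [← ha, Nat.mod_eq_of_lt hκa]
      exact htκ
  -- strength two is always available
  have hS : ∀ k', 2 < k' % a → L F 2 k' ((r + 1) * a + 2) := by
    intro k' hk'
    apply L_two hq _ _ l
    · rw [← ha, Nat.mul_add_mod', Nat.mod_eq_of_lt (by omega)]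
      omega
    · rw [← ha, Nat.mul_add_mod', Nat.mod_eq_of_lt (by omega)]
      exact hk'
  have hca : Even (c * a) := haev.mul_left c
  apply block 2 a ((r + 1) * a) k κ htκ hκa
  · intro d hda hdk hd
    by_cases hd0 : d = 0
    · refine ⟨0, 3, by omega, L.zero _ _, ?_⟩
      subst hd0
      rw [Nat.sub_zero]
      apply hB _ hko
      rw [hkmod]
      exact htκ
    by_cases hda' : d = a
    · refine ⟨0, 3, by omega, L.zero _ _, ?_⟩
      subst hda'
      have h5 : (k - d) % d = κ := by
        rw [← hkmod]
        exact (Nat.mod_eq_sub_mod hdk).symm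
      apply hB
      · exact Nat.Odd.sub_even hdk hko haev
      · rw [h5]
        exact htκ
    · refine ⟨1, 2, by omega, ?_, ?_⟩
      · apply L.one
        rw [g_even_iff hq]
        apply choose_even_of_mod l
        rw [← ha, Nat.mod_self, Nat.mod_eq_of_lt (by omega)]
        omega
      · apply hS
        rcases Nat.lt_or_ge κ d with h | h
        · -- d > κ
          have hc1 : 1 ≤ c := by
            by_contra h0
            have : c = 0 := by omega
            rw [this, zero_mul] at hc
            omega
          obtain ⟨c', rfl⟩ : ∃ c', c = c' + 1 := ⟨c - 1, by omega⟩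
          have e1 : k - d = c' * a + (a + κ - d) := by
            have : (c' + 1) * a = c' * a + a := by ring
            omega
          rw [e1, Nat.mul_add_mod', Nat.mod_eq_of_lt (by omega)]
          omega
        · have e1 : k - d = c * a + (κ - d) := by omega
          rw [e1, Nat.mul_add_mod', Nat.mod_eq_of_lt (by omega)]
          omega
  · intro i hi hik
    constructor
    · apply L.derived_iter (2 - i)
      have e1 : i + 1 + (2 - i) = 3 := by omega
      have e2 : κ - 2 + i + (2 - i) = κ := by omega
      have e3 : a + i + (2 - i) = a + 2 := by omega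
      rw [e1, e2, e3]
      exact hA
    · have hbpos : 0 < (r + 1) * a := Nat.mul_pos (by omega) hapos
      apply L.derived_iter (i + 1)
      have e1 : 2 - i + (i + 1) = 3 := by omega
      have e2 : k - (κ - 2 + i) + (i + 1) = c * a + 3 := by omega
      have e3 : (r + 1) * a + 2 - (i + 1) + (i + 1) = (r + 1) * a + 2 := by omega
      rw [e1, e2, e3]
      apply hB
      · exact hca.add_odd (by decide)
      · rw [Nat.mul_add_mod', Nat.mod_eq_of_lt (by omega)]
        omega
  · intro i hi hik
    constructor
    · apply L.residual_iter (2 - i)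
      have e1 : i + 1 + (2 - i) = 3 := by omega
      have e3 : a + i + (2 - i) = a + 2 := by omega
      rw [e1, e3]
      exact hA
    · have hbpos : 0 < (r + 1) * a := Nat.mul_pos (by omega) hapos
      apply L.residual_iter (i + 1)
      have e1 : 2 - i + (i + 1) = 3 := by omega
      have e3 : (r + 1) * a + 2 - (i + 1) + (i + 1) = (r + 1) * a + 2 := by omega
      rw [e1, e3]
      have hc1 : 1 ≤ c := by
        by_contra h0
        have : c = 0 := by omega
        rw [this, zero_mul] at hc
        omega
      apply hB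
      · exact Nat.Odd.sub_even hik hko hκo.add_one
      · obtain ⟨c', rfl⟩ : ∃ c', c = c' + 1 := ⟨c - 1, by omega⟩
        have e2 : k - (κ + 1) = c' * a + (a - 1) := by
          have : (c' + 1) * a = c' * a + a := by ring
          omega
        rw [e2, Nat.mul_add_mod', Nat.mod_eq_of_lt (by omega)]
        omega
  · intro _
    exact hA

/-- The odd family, from the middle layers `(k, 2k)`, `k` odd. -/
theorem odd_family (hq : Odd (Nat.card F))
    (hmid : ∀ k, Odd k → 3 ≤ k → L F 3 k (2 * k)) :
    ∀ v k l, 2 ≤ l → v % 2 ^ l = 2 → Odd k → 2 < k % 2 ^ l → L F 3 k v := by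
  intro v
  induction v using Nat.strong_induction_on with
  | _ v ih =>
    intro k l hl hv hko hk
    by_cases hkv : v < k
    · exact L.of_lt hkv
    have hapos : 0 < 2 ^ l := pow_pos (by norm_num) l
    obtain ⟨m, hm⟩ : ∃ m, v = m * 2 ^ l + 2 := ⟨v / 2 ^ l, by
      have := Nat.div_add_mod v (2 ^ l)
      rw [hv] at this
      rw [mul_comm]
      omega⟩
    rcases Nat.lt_or_ge m 2 with hm2 | hm2
    · have hm01 : m = 0 ∨ m = 1 := by omega
      have hkl : k % 2 ^ l ≤ k := Nat.mod_le _ _
      rcases hm01 with rfl | rfl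
      · omega
      · rw [one_mul] at hm
        obtain ⟨n, rfl⟩ : ∃ n, l = n + 1 := ⟨l - 1, by omega⟩
        have hpow : 2 ^ (n + 1) = 2 * 2 ^ n := pow_succ' 2 n
        have hkl' : k < 2 ^ (n + 1) := by
          by_contra hge
          push Not at hge
          have : k % 2 ^ (n + 1) = (k - 2 ^ (n + 1)) % 2 ^ (n + 1) := Nat.mod_eq_sub_mod hge
          have h3 : (k - 2 ^ (n + 1)) % 2 ^ (n + 1) ≤ k - 2 ^ (n + 1) := Nat.mod_le _ _
          omega
        have hev : Even (2 ^ n) := by
          rw [Nat.even_pow]
          exact ⟨even_two, by omega⟩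
        by_cases hc : 2 < k % 2 ^ n
        · have hn2 : 2 ≤ n := by
            by_contra h
            have : n = 1 := by omega
            subst this
            have := Nat.mod_lt k (show 0 < 2 ^ 1 by norm_num)
            omega
          have hv2 : v = 2 * 2 ^ n + 2 := by rw [hm, hpow]
          rw [hv2]
          apply odd_block hq n 2 k hn2 le_rfl hko hc
          intro v' hv' k' l' g1 g2 g3 g4
          exact ih v' (by omega) k' l' g1 g2 g3 g4
        · -- `k = 2^n + 1`
          have hge : 2 ^ n ≤ k := by
            by_contra hlt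
            push Not at hlt
            rw [Nat.mod_eq_of_lt hlt] at hc
            omega
          obtain ⟨j, hj⟩ : ∃ j, k = 2 ^ n + j := ⟨k - 2 ^ n, by omega⟩
          have hjn : j < 2 ^ n := by omega
          have hkj : k % 2 ^ n = j := by
            rw [hj, Nat.add_mod_left, Nat.mod_eq_of_lt hjn]
          have hjo : Odd j := by
            rw [hj] at hko
            rcases Nat.even_or_odd j with h | h
            · exact absurd hko (Nat.not_odd_iff_even.2 (hev.add h))
            · exact h
          have hj1 : j = 1 := by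
            rcases hjo with ⟨i, hi⟩
            omega
          subst hj1
          have h4 : 2 ^ (n + 1) + 2 = 2 * k := by rw [hj, hpow]; ring
          rw [hm, h4]
          exact hmid k hko (by omega)
    · rw [hm]
      apply odd_block hq l m k hl hm2 hko hk
      intro v' hv' k' l' g1 g2 g3 g4
      exact ih v' (by omega) k' l' g1 g2 g3 g4

end Pool.Agent.H14.Halv
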