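import Mathlib
import Pool.Agent.H14.Halv.OddRec

/-!
# The recursion for `t = 2`

`Good k v`: there are `1 ≤ e < l` with `v % 2^e < k % 2^e` and `2^e ≤ v % 2^l < k % 2^l`.
From the middle layers `(k, 2k)`, `k` not a power of two, we get `L F 3 k v` for all good `(k, v)`.
-/

set_option autoImplicit false
set_option linter.unusedSectionVars false
set_option linter.unusedVariables false
set_option linter.style.haveILetI false

open Module
open scoped Classical
open Pool.Agent.H24.LS

namespace Pool.Agent.H14.Halv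

variable {F : Type} [Field F] [Finite F]

/-- Cut along a subspace of dimension `b`. -/
theorem cutL (s k v b : ℕ) (hb : b ≤ v)
    (h : ∀ d, d ≤ b → d ≤ k → ∃ s1 s2, s1 + s2 = s ∧ L F s1 d b ∧ L F s2 (k - d) (v - b)) :
    L F s k v := by
  have hn : finrank F (Fin v → F) = v := by simp
  obtain ⟨A, hA1, hA2⟩ := exists_flag (F := F) v hn
  have hAb : finrank F (A b) = b := hA2 _ hb
  have hq : finrank F ((Fin v → F) ⧸ A b) = v - b := finrank_quot hn _ hAb
  have rest := Halv.biUnion (s := s) (Finset.range (b + 1))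
    (fun d => {K : Submodule F (Fin v → F) | finrank F K = k ∧
      finrank F (K ⊓ A b : Submodule F _) = d}) ?_ ?_
  · apply Halv.congr _ rest
    ext K
    simp only [Set.mem_ofPred_eq, Gr, Finset.mem_range]
    constructor
    · rintro ⟨d, _, h⟩; exact h.1
    · intro h
      refine ⟨_, ?_, h, rfl⟩
      have : finrank F (K ⊓ A b : Submodule F _) ≤ finrank F (A b) :=
        Submodule.finrank_mono inf_le_right
      omega
  · intro i _ j _ hij
    rw [Set.disjoint_left]
    rintro K ⟨h1, h2⟩ ⟨g1, g2⟩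
    exact hij (h2.symm.trans g2)
  · intro d hd
    rw [Finset.mem_range] at hd
    by_cases hdk : d ≤ k
    · obtain ⟨s1, s2, hs, l1, l2⟩ := h d (by omega) hdk
      rw [← hs]
      exact halv_cut_dim (A b) d k s1 s2 b (v - b) hAb hq (fun _ => l1) (fun _ => l2)
    · exact halv_cut_dim (A b) d k s 0 b (v - b) hAb hq (fun h => absurd h hdk)
        (fun h => absurd h hdk)

/-- The block recursion with residue `r` and strength `s` decoupled. -/
theorem blockG (s r a b k κ : ℕ) (hrκ : r < κ) (hκa : κ < a)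
    (H0 : ∀ d, d ≤ a → d ≤ k → ¬ (κ - r ≤ d ∧ d ≤ κ) →
      ∃ s1 s2, s1 + s2 = s ∧ L F s1 d a ∧ L F s2 (k - d) (b + r))
    (HN : ∀ i, i < r → κ - r + i ≤ k → ∃ s1 s2, s1 + s2 = s ∧
      L F s1 (κ - r + i) (a + i) ∧ L F s2 (k - (κ - r + i)) (b + r - (i + 1)))
    (HE : ∀ i, i < r → κ + 1 ≤ k → ∃ s1 s2, s1 + s2 = s ∧
      L F s1 κ (a + i) ∧ L F s2 (k - (κ + 1)) (b + r - (i + 1)))
    (H2 : κ ≤ k → L F s κ (a + r)) : L F s k (a + b + r) := by
  have hn : finrank F (Fin (a + b + r) → F) = a + b + r := by simp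
  obtain ⟨A, hA1, hA2⟩ := exists_flag (F := F) (a + b + r) hn
  -- the critical family at level `i`
  have crit : ∀ j, j ≤ r → Halv s {K : Submodule F (Fin (a + b + r) → F) | finrank F K = k ∧
      κ - j ≤ finrank F (K ⊓ A (a + (r - j)) : Submodule F _) ∧
      finrank F (K ⊓ A (a + (r - j)) : Submodule F _) ≤ κ} := by
    intro j
    induction j with
    | zero =>
      intro _
      have hB : finrank F (A (a + r)) = a + r := hA2 _ (by omega)
      have := halv_cut_dim (A (a + r)) κ k s 0 (a + r) _ hB (finrank_quot hn _ hB)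
        H2 (fun _ => L.zero _ _)
      apply Halv.congr _ this
      ext K
      simp only [Set.mem_ofPred_eq, Nat.sub_zero]
      constructor
      · rintro ⟨h1, h2⟩; exact ⟨h1, by omega, by omega⟩
      · rintro ⟨h1, h2, h3⟩; exact ⟨h1, by omega⟩
    | succ j ih =>
      intro hj
      have ih' := ih (by omega)
      -- level `i = r - (j+1)`
      obtain ⟨i, hi⟩ : ∃ i, i = r - (j + 1) := ⟨_, rfl⟩
      have hi1 : r - j = i + 1 := by omega
      have hi2 : κ - (j + 1) = κ - r + i := by omega
      rw [hi1] at ih'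
      rw [← hi]
      have hAa : finrank F (A (a + i)) = a + i := hA2 _ (by omega)
      have hBb : finrank F (A (a + (i + 1))) = a + (i + 1) := hA2 _ (by omega)
      have hAB : A (a + i) ≤ A (a + (i + 1)) := hA1 _ _ (by omega)
      have hq : finrank F ((Fin (a + b + r) → F) ⧸ A (a + (i + 1))) = b + r - (i + 1) := by
        rw [finrank_quot hn _ hBb]; omega
      have cN : Halv s {K : Submodule F (Fin (a + b + r) → F) | finrank F K = k ∧
          finrank F (K ⊓ A (a + i) : Submodule F _) = κ - r + i ∧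
          finrank F (K ⊓ A (a + (i + 1)) : Submodule F _) = κ - r + i} := by
        by_cases hk : κ - r + i ≤ k
        · obtain ⟨s1, s2, hs, l1, l2⟩ := HN i (by omega) hk
          rw [← hs]
          exact halv_cut_dim2 (A (a + i)) (A (a + (i + 1))) hAB (κ - r + i) (κ - r + i) k
            s1 s2 (a + i) (b + r - (i + 1)) hAa hq (fun _ => l1) (fun _ => l2)
        · exact halv_cut_dim2 (A (a + i)) (A (a + (i + 1))) hAB (κ - r + i) (κ - r + i) k
            s 0 (a + i) (b + r - (i + 1)) hAa hq (fun h => absurd h hk) (fun h => absurd h hk)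
      have cE : Halv s {K : Submodule F (Fin (a + b + r) → F) | finrank F K = k ∧
          finrank F (K ⊓ A (a + i) : Submodule F _) = κ ∧
          finrank F (K ⊓ A (a + (i + 1)) : Submodule F _) = κ + 1} := by
        by_cases hk : κ + 1 ≤ k
        · obtain ⟨s1, s2, hs, l1, l2⟩ := HE i (by omega) hk
          rw [← hs]
          exact halv_cut_dim2 (A (a + i)) (A (a + (i + 1))) hAB κ (κ + 1) k
            s1 s2 (a + i) (b + r - (i + 1)) hAa hq (fun _ => l1) (fun _ => l2)
        · exact halv_cut_dim2 (A (a + i)) (A (a + (i + 1))) hAB κ (κ + 1) k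
            s 0 (a + i) (b + r - (i + 1)) hAa hq (fun h => absurd h hk) (fun h => absurd h hk)
      have u1 := Halv.union (S := {K : Submodule F (Fin (a + b + r) → F) | finrank F K = k ∧
        κ - j ≤ finrank F (K ⊓ A (a + (i + 1)) : Submodule F _) ∧
        finrank F (K ⊓ A (a + (i + 1)) : Submodule F _) ≤ κ}) ?_ ih' cN
      · have u2 := Halv.union ?_ u1 cE
        · apply Halv.congr _ u2
          ext K
          simp only [Set.mem_union, Set.mem_ofPred_eq]
          have hs := step_le (A (a + i)) (A (a + (i + 1))) K hAB (by omega)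
          constructor
          · rintro ((⟨h1, h2, h3⟩ | ⟨h1, h2, h3⟩) | ⟨h1, h2, h3⟩)
            · exact ⟨h1, by omega, by omega⟩
            · exact ⟨h1, by omega, by omega⟩
            · exact ⟨h1, by omega, by omega⟩
          · rintro ⟨h1, h2, h3⟩
            by_cases hc1 : finrank F (K ⊓ A (a + (i + 1)) : Submodule F _) = κ + 1
            · right; exact ⟨h1, by omega, hc1⟩
            · left
              by_cases hc2 : finrank F (K ⊓ A (a + (i + 1)) : Submodule F _) = κ - r + i
              · right; exact ⟨h1, by omega, hc2⟩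
              · left; exact ⟨h1, by omega, by omega⟩
        · rw [Set.disjoint_left]
          rintro K (⟨h1, h2, h3⟩ | ⟨h1, h2, h3⟩) ⟨g1, g2, g3⟩
          · omega
          · omega
      · rw [Set.disjoint_left]
        rintro K ⟨h1, h2, h3⟩ ⟨g1, g2, g3⟩
        omega
  have c0 := crit r le_rfl
  rw [Nat.sub_self, add_zero] at c0
  have hAa : finrank F (A a) = a := hA2 _ (by omega)
  have hq : finrank F ((Fin (a + b + r) → F) ⧸ A a) = b + r := by
    rw [finrank_quot hn _ hAa]; omega
  have rest := Halv.biUnion (s := s)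
    ((Finset.range (a + 1)).filter (fun d => ¬ (κ - r ≤ d ∧ d ≤ κ)))
    (fun d => {K : Submodule F (Fin (a + b + r) → F) | finrank F K = k ∧
      finrank F (K ⊓ A a : Submodule F _) = d}) ?_ ?_
  · have u := Halv.union ?_ c0 rest
    · apply Halv.congr _ u
      ext K
      simp only [Set.mem_union, Set.mem_ofPred_eq, Gr, Finset.mem_filter, Finset.mem_range]
      constructor
      · rintro (h | ⟨d, _, h⟩) <;> exact h.1
      · intro h
        by_cases hc : κ - r ≤ finrank F (K ⊓ A a : Submodule F _) ∧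
          finrank F (K ⊓ A a : Submodule F _) ≤ κ
        · left; exact ⟨h, hc.1, hc.2⟩
        · right
          refine ⟨_, ⟨?_, hc⟩, h, rfl⟩
          have : finrank F (K ⊓ A a : Submodule F _) ≤ finrank F (A a) :=
            Submodule.finrank_mono inf_le_right
          omega
    · rw [Set.disjoint_left]
      rintro K ⟨h1, h2, h3⟩ ⟨d, hd, hK⟩
      obtain ⟨g1, g2⟩ := hK
      rw [Finset.mem_filter] at hd
      apply hd.2
      rw [← g2]
      exact ⟨h2, h3⟩
  · intro i _ j _ hij
    rw [Set.disjoint_left]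
    rintro K ⟨h1, h2⟩ ⟨g1, g2⟩
    exact hij (h2.symm.trans g2)
  · intro d hd
    rw [Finset.mem_filter, Finset.mem_range] at hd
    by_cases hdk : d ≤ k
    · obtain ⟨s1, s2, hs, l1, l2⟩ := H0 d (by omega) hdk hd.2
      rw [← hs]
      exact halv_cut_dim (A a) d k s1 s2 a (b + r) hAa hq (fun _ => l1) (fun _ => l2)
    · exact halv_cut_dim (A a) d k s 0 a (b + r) hAa hq (fun h => absurd h hdk)
        (fun h => absurd h hdk)

/-- strength one from a residue inequality -/
theorem L_one (hq : Odd (Nat.card F)) (v k l : ℕ) (h : v % 2 ^ l < k % 2 ^ l) : L F 1 k v := by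
  apply L.one
  rw [g_even_iff hq]
  exact choose_even_of_mod l v k h

/-- The case `v = m 2^l + r`, `m ≥ 2`, residue `r ≥ 2`, from three smaller instances. -/
theorem block2 (hq : Odd (Nat.card F)) (l m k r : ℕ) (hm : 2 ≤ m) (hr2 : 2 ≤ r)
    (hk : r < k % 2 ^ l)
    (h1 : L F 3 k ((m - 1) * 2 ^ l + r)) (h2 : 2 ^ l ≤ k → L F 3 (k - 2 ^ l) ((m - 1) * 2 ^ l + r))
    (h3 : L F 3 (k % 2 ^ l) (2 ^ l + r)) : L F 3 k (m * 2 ^ l + r) := by
  obtain ⟨κ, hκ⟩ : ∃ κ, κ = k % 2 ^ l := ⟨_, rfl⟩
  obtain ⟨a, ha⟩ : ∃ a, a = 2 ^ l := ⟨_, rfl⟩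
  have hapos : 0 < a := ha ▸ pow_pos (by norm_num) l
  have hκa : κ < a := by rw [hκ, ha]; exact Nat.mod_lt _ (pow_pos (by norm_num) l)
  have hrκ : r < κ := hκ ▸ hk
  rw [← hκ, ← ha] at h3
  rw [← ha] at h1 h2
  obtain ⟨p, hp⟩ : ∃ p, m = p + 2 := ⟨m - 2, by omega⟩
  have hm1 : m - 1 = p + 1 := by omega
  rw [hm1] at h1 h2
  have hma : m * 2 ^ l + r = a + (p + 1) * a + r := by rw [hp, ← ha]; ring
  have hkmod : k % a = κ := by rw [hκ, ha]
  obtain ⟨c, hc⟩ : ∃ c, k = c * a + κ := ⟨k / a, by
    have := Nat.div_add_mod k a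
    rw [hkmod] at this
    rw [mul_comm]
    omega⟩
  rw [hma]
  have hba : 0 < (p + 1) * a := Nat.mul_pos (by omega) hapos
  -- strength two, residues
  have S2 : ∀ k' x, 1 ≤ x → x < k' % a → ∀ y, L F 2 k' (y * a + x) := by
    intro k' x hx hk' y
    have hxa : x < a := lt_trans hk' (Nat.mod_lt _ hapos)
    apply L_two hq _ _ l
    · rw [← ha, Nat.mul_add_mod', Nat.mod_eq_of_lt hxa]
      exact hx
    · rw [← ha, Nat.mul_add_mod', Nat.mod_eq_of_lt hxa]
      exact hk'
  have S1 : ∀ k' x, x < k' % a → ∀ y, L F 1 k' (y * a + x) := by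
    intro k' x hk' y
    have hxa : x < a := lt_trans hk' (Nat.mod_lt _ hapos)
    apply L_one hq _ _ l
    rw [← ha, Nat.mul_add_mod', Nat.mod_eq_of_lt hxa]
    exact hk'
  apply blockG 3 r a ((p + 1) * a) k κ hrκ hκa
  · intro d hda hdk hd
    by_cases hd0 : d = 0
    · refine ⟨0, 3, by omega, L.zero _ _, ?_⟩
      subst hd0
      rw [Nat.sub_zero]
      exact h1
    by_cases hda' : d = a
    · refine ⟨0, 3, by omega, L.zero _ _, ?_⟩
      rw [hda']
      exact h2 (by omega)
    · refine ⟨1, 2, by omega, ?_, ?_⟩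
      · apply L_one hq _ _ l
        rw [← ha, Nat.mod_self, Nat.mod_eq_of_lt (by omega)]
        omega
      · apply S2 _ _ (by omega)
        rcases Nat.lt_or_ge κ d with h | h
        · have hc1 : 1 ≤ c := by
            by_contra h0
            have : c = 0 := by omega
            rw [this, zero_mul] at hc
            omega
          obtain ⟨c', rfl⟩ : ∃ c', c = c' + 1 := ⟨c - 1, by omega⟩
          have e1 : k - d = c' * a + (a + κ - d) := by
            have : (c' + 1) * a = c' * a + a := by ring
            omega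
          rw [e1, Nat.mul_add_mod', Nat.mod_eq_of_lt (by omega)]
          omega
        · have e1 : k - d = c * a + (κ - d) := by omega
          rw [e1, Nat.mul_add_mod', Nat.mod_eq_of_lt (by omega)]
          omega
  · intro i hi hik
    -- left: `(κ - r + i, a + i)`; right: `(k - (κ - r + i), (p+1) a + (r - 1 - i))`
    have hl : (κ - r + i) % a = κ - r + i := Nat.mod_eq_of_lt (by omega)
    have hrr : (k - (κ - r + i)) % a = r - i := by
      have e1 : k - (κ - r + i) = c * a + (r - i) := by omega
      rw [e1, Nat.mul_add_mod', Nat.mod_eq_of_lt (by omega)]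
    have e3 : (p + 1) * a + r - (i + 1) = (p + 1) * a + (r - (i + 1)) := by omega
    rw [e3]
    by_cases hi0 : i = 0
    · refine ⟨1, 2, by omega, ?_, ?_⟩
      · have := S1 (κ - r + i) i (by omega) 1
        rwa [one_mul] at this
      · exact S2 _ _ (by omega) (by omega) (p + 1)
    · refine ⟨2, 1, by omega, ?_, ?_⟩
      · have := S2 (κ - r + i) i (by omega) (by omega) 1
        rwa [one_mul] at this
      · exact S1 _ _ (by omega) (p + 1)
  · intro i hi hik
    have hl : κ % a = κ := Nat.mod_eq_of_lt (by omega)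
    have hc1 : 1 ≤ c := by
      by_contra h0
      have : c = 0 := by omega
      rw [this, zero_mul] at hc
      omega
    have hrr : (k - (κ + 1)) % a = a - 1 := by
      obtain ⟨c', rfl⟩ : ∃ c', c = c' + 1 := ⟨c - 1, by omega⟩
      have e1 : k - (κ + 1) = c' * a + (a - 1) := by
        have : (c' + 1) * a = c' * a + a := by ring
        omega
      rw [e1, Nat.mul_add_mod', Nat.mod_eq_of_lt (by omega)]
    have e3 : (p + 1) * a + r - (i + 1) = (p + 1) * a + (r - (i + 1)) := by omega
    rw [e3]
    by_cases hi0 : i = 0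
    · refine ⟨1, 2, by omega, ?_, ?_⟩
      · have := S1 κ i (by omega) 1
        rwa [one_mul] at this
      · exact S2 _ _ (by omega) (by omega) (p + 1)
    · refine ⟨2, 1, by omega, ?_, ?_⟩
      · have := S2 κ i (by omega) (by omega) 1
        rwa [one_mul] at this
      · exact S1 _ _ (by omega) (p + 1)
  · intro _
    exact h3

/-- the parameters reached by the recursion -/
def Good (k v : ℕ) : Prop :=
  ∃ e l, 1 ≤ e ∧ e < l ∧ v % 2 ^ e < k % 2 ^ e ∧ 2 ^ e ≤ v % 2 ^ l ∧ v % 2 ^ l < k % 2 ^ l

lemma sub_mod_eq (x d Q : ℕ) (hQ : 0 < Q) (h : d ≤ x % Q) : (x - d) % Q = x % Q - d := by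
  have h1 := Nat.div_add_mod x Q
  have h2 := Nat.mod_lt x hQ
  have e : x - d = Q * (x / Q) + (x % Q - d) := by omega
  rw [e, Nat.mul_add_mod, Nat.mod_eq_of_lt (by omega)]

lemma sub_dvd_mod (x y P : ℕ) (hP : P ∣ y) (h : y ≤ x) : (x - y) % P = x % P := by
  obtain ⟨n, rfl⟩ := hP
  exact Nat.sub_mul_mod h

/-- `Good` with fixed levels. -/
def GoodAt (e l k v : ℕ) : Prop :=
  1 ≤ e ∧ e < l ∧ v % 2 ^ e < k % 2 ^ e ∧ 2 ^ e ≤ v % 2 ^ l ∧ v % 2 ^ l < k % 2 ^ l

lemma exists_val (k e : ℕ) (h : 0 < k % 2 ^ e) : ∃ e', 1 ≤ e' ∧ e' ≤ e ∧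
    k % 2 ^ e' = 2 ^ (e' - 1) := by
  have hk : k ≠ 0 := by
    rintro rfl
    simp at h
  obtain ⟨n, m, hm, hkm⟩ := Nat.exists_eq_two_pow_mul_odd hk
  have hn : n < e := by
    by_contra hne
    have : 2 ^ e ∣ k := (pow_dvd_pow 2 (by omega : e ≤ n)).trans ⟨m, hkm⟩
    rw [Nat.mod_eq_zero_of_dvd this] at h
    exact lt_irrefl _ h
  refine ⟨n + 1, by omega, by omega, ?_⟩
  obtain ⟨j, rfl⟩ := hm
  have : k = 2 ^ (n + 1) * j + 2 ^ n := by rw [hkm]; ring
  rw [this, Nat.mul_add_mod, Nat.mod_eq_of_lt (Nat.pow_lt_pow_right (by norm_num) (by omega))]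
  simp

theorem good_family (hq : Odd (Nat.card F))
    (hmid : ∀ k, 0 < k → (∀ n, k ≠ 2 ^ n) → L F 3 k (2 * k)) :
    ∀ v k, Good k v → L F 3 k v := by
  intro v
  induction v using Nat.strong_induction_on with
  | _ v ih =>
  intro k hg
  rcases Nat.lt_or_ge v k with hvk | hvk
  · exact L.of_lt hvk
  obtain ⟨e0, l, he0, hel0, h1, h2, h3⟩ := hg
  by_cases hA : v % 2 ^ e0 = 0
  swap
  · -- case A
    have hv0 : v ≠ 0 := by
      rintro rfl
      simp at hA
    have hk0 : k ≠ 0 := by
      rintro rfl
      simp at h1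
    obtain ⟨v', rfl⟩ := Nat.exists_eq_succ_of_ne_zero hv0
    obtain ⟨k', rfl⟩ := Nat.exists_eq_succ_of_ne_zero hk0
    simp only [Nat.succ_eq_add_one] at *
    have hP : 0 < 2 ^ e0 := pow_pos (by norm_num) e0
    have hQ : 0 < 2 ^ l := pow_pos (by norm_num) l
    have a1 := succ_mod v' (2 ^ e0) hP hA
    have a2 := succ_mod k' (2 ^ e0) hP (by omega)
    have a3 := succ_mod v' (2 ^ l) hQ (by omega)
    have a4 := succ_mod k' (2 ^ l) hQ (by omega)
    have hdv : (2 : ℕ) ^ e0 ∣ 2 ^ l := pow_dvd_pow 2 (by omega)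
    have a5 : (v' + 1) % 2 ^ l % 2 ^ e0 = (v' + 1) % 2 ^ e0 := Nat.mod_mod_of_dvd _ hdv
    have a6 : (v' + 1) % 2 ^ l ≠ 2 ^ e0 := by
      intro h
      rw [h, Nat.mod_self] at a5
      exact hA a5.symm
    apply L.hyper
    · exact ih v' (by omega) _ ⟨e0, l, he0, hel0, by omega, by omega, by omega⟩
    · exact ih v' (by omega) _ ⟨e0, l, he0, hel0, by omega, by omega, by omega⟩
  -- case B
  obtain ⟨e, he1, hee0, hke⟩ := exists_val k e0 (by omega)
  have hel : e < l := by omega
  obtain ⟨P, hPdef⟩ : ∃ P, P = 2 ^ e := ⟨_, rfl⟩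
  obtain ⟨Q, hQdef⟩ : ∃ Q, Q = 2 ^ l := ⟨_, rfl⟩
  obtain ⟨c, hcdef⟩ : ∃ c, c = 2 ^ (e - 1) := ⟨_, rfl⟩
  have hPc : P = 2 * c := by
    rw [hPdef, hcdef, ← pow_succ']
    congr 1
    omega
  have hc0 : 0 < c := hcdef ▸ pow_pos (by norm_num) _
  have hPe0 : P ∣ 2 ^ e0 := hPdef ▸ pow_dvd_pow 2 hee0
  have hPle0 : P ≤ 2 ^ e0 := Nat.le_of_dvd (pow_pos (by norm_num) _) hPe0
  have hPQ : P ∣ Q := by
    rw [hPdef, hQdef]
    exact pow_dvd_pow 2 hel.le
  have hQ0 : 0 < Q := hQdef ▸ pow_pos (by norm_num) _
  have hP0 : 0 < P := by omega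
  have hkP : k % P = c := by rw [hPdef, hcdef]; exact hke
  have hvP : v % P = 0 := by
    rw [← Nat.mod_mod_of_dvd v hPe0, hA, Nat.zero_mod]
  rw [← hQdef] at h2 h3
  have h2' : P ≤ v % Q := le_trans hPle0 h2
  -- the induction hypothesis at levels `(e, l)`
  have IH : ∀ v' k', v' < v → v' % P = 0 → k' % P = c → P ≤ v' % Q → v' % Q < k' % Q →
      L F 3 k' v' := by
    intro v' k' hv' b1 b2 b3 b4
    apply ih v' hv' k'
    refine ⟨e, l, he1, hel, ?_, ?_, ?_⟩
    · rw [← hPdef]; omega
    · rw [← hPdef, ← hQdef]; exact b3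
    · rw [← hQdef]; exact b4
  have hvQP : v % Q % P = 0 := by rw [Nat.mod_mod_of_dvd v hPQ, hvP]
  have hkQP : k % Q % P = c := by rw [Nat.mod_mod_of_dvd k hPQ, hkP]
  have hvQ : v % Q ≤ v := Nat.mod_le _ _
  have hkQ : k % Q ≤ k := Nat.mod_le _ _
  rcases Nat.lt_or_ge P (v % Q) with hr | hr
  · -- B1
    have hr2 : 2 * P ≤ v % Q := by
      obtain ⟨x, hx⟩ := Nat.dvd_of_mod_eq_zero hvQP
      rw [hx] at hr ⊢
      have : 2 ≤ x := by
        by_contra hx2
        have : x = 0 ∨ x = 1 := by omega
        rcases this with rfl | rfl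
        · rw [mul_zero] at hr; omega
        · rw [mul_one] at hr; omega
      calc 2 * P = P * 2 := mul_comm _ _
        _ ≤ P * x := Nat.mul_le_mul_left _ this
    apply cutL 3 k v P (by omega)
    intro d hd hdk
    have e1 : (v - P) % P = 0 := by rw [sub_dvd_mod v P P dvd_rfl (by omega), hvP]
    have e2 : (v - P) % Q = v % Q - P := sub_mod_eq _ _ _ hQ0 (by omega)
    rcases Nat.eq_zero_or_pos d with hd0 | hd0
    · subst hd0
      refine ⟨0, 3, by omega, L.zero _ _, ?_⟩
      rw [Nat.sub_zero]
      exact IH _ _ (by omega) e1 hkP (by omega) (by omega)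
    · rcases Nat.lt_or_ge d P with hdP | hdP
      · refine ⟨1, 2, by omega, ?_, ?_⟩
        · apply L_one hq _ _ e
          rw [← hPdef, Nat.mod_self, Nat.mod_eq_of_lt hdP]
          exact hd0
        · have e3 : (k - d) % Q = k % Q - d := sub_mod_eq _ _ _ hQ0 (by omega)
          apply L_two hq _ _ l
          · rw [← hQdef]; omega
          · rw [← hQdef]; omega
      · have hdP' : d = P := by omega
        subst hdP'
        refine ⟨0, 3, by omega, L.zero _ _, ?_⟩
        have e3 : (k - d) % d = c := by rw [sub_dvd_mod k d d dvd_rfl (by omega), hkP]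
        have e4 : (k - d) % Q = k % Q - d := sub_mod_eq _ _ _ hQ0 (by omega)
        exact IH _ _ (by omega) e1 e3 (by omega) (by omega)
  · -- B2
    have hr' : v % Q = P := by omega
    obtain ⟨m, hm⟩ : ∃ m, v = m * Q + P := ⟨v / Q, by
      have := Nat.div_add_mod v Q
      rw [hr'] at this
      rw [mul_comm]
      omega⟩
    have hPltQ : P < Q := by
      have := Nat.mod_lt v hQ0
      omega
    have hκ : P + c ≤ k % Q := by
      rw [hr'] at h3
      have hd := Nat.div_add_mod (k % Q) P
      rw [hkQP] at hd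
      have : 1 ≤ k % Q / P := Nat.div_pos h3.le hP0
      have : P * 1 ≤ P * (k % Q / P) := Nat.mul_le_mul_left _ this
      omega
    have hkQlt := Nat.mod_lt k hQ0
    rcases Nat.lt_or_ge m 2 with hm2 | hm2
    · have hm01 : m = 0 ∨ m = 1 := by omega
      rcases hm01 with rfl | rfl
      · rw [zero_mul] at hm
        omega
      · rw [one_mul] at hm
        have hkltQ : k < Q := by
          by_contra hkQ'
          have hd := Nat.div_add_mod k Q
          have : 1 ≤ k / Q := Nat.div_pos (by omega) hQ0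
          have : Q * 1 ≤ Q * (k / Q) := Nat.mul_le_mul_left _ this
          omega
        have hkκ : k % Q = k := Nat.mod_eq_of_lt hkltQ
        obtain ⟨R, hRdef⟩ : ∃ R, R = 2 ^ (l - 1) := ⟨_, rfl⟩
        have hQR : Q = 2 * R := by
          rw [hQdef, hRdef, ← pow_succ']
          congr 1
          omega
        have hR0 : 0 < R := by omega
        have hPR : P ∣ R := by
          rw [hPdef, hRdef]
          exact pow_dvd_pow 2 (by omega)
        have hkRP : k % R % P = c := by rw [Nat.mod_mod_of_dvd k hPR, hkP]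
        rcases Nat.lt_or_ge P (k % R) with hkR | hkR
        · have hel1 : e < l - 1 := by
            by_contra hne
            have : l - 1 = e := by omega
            rw [hRdef, this, ← hPdef] at hkR
            have := Nat.mod_lt k hP0
            omega
          have hPltR : P < R := by
            rw [hPdef, hRdef]
            exact Nat.pow_lt_pow_right (by norm_num) hel1
          have hvR : (R + P) % R = P := by
            rw [Nat.add_mod_left, Nat.mod_eq_of_lt hPltR]
          have hvP' : (R + P) % P = 0 := by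
            rw [Nat.add_mod_right]; exact Nat.mod_eq_zero_of_dvd hPR
          have IH' : ∀ k', k' % P = c → P < k' % R → L F 3 k' (R + P) := by
            intro k' b2 b4
            apply ih (R + P) (by omega) k'
            refine ⟨e, l - 1, he1, hel1, ?_, ?_, ?_⟩
            · rw [← hPdef]; omega
            · rw [← hPdef, ← hRdef]; omega
            · rw [← hRdef]; omega
          have hvv : v = 2 * 2 ^ (l - 1) + P := by rw [← hRdef]; omega
          rw [hvv]
          apply block2 hq (l - 1) 2 k P le_rfl (by omega)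
          · rw [← hRdef]; exact hkR
          · rw [← hRdef]
            have := IH' k hkP hkR
            simpa using this
          · rw [← hRdef]
            intro hRk
            have := IH' (k - R) (by rw [sub_dvd_mod k R P hPR hRk, hkP])
              (by rw [sub_dvd_mod k R R dvd_rfl hRk]; exact hkR)
            simpa using this
          · rw [← hRdef]
            exact IH' (k % R) hkRP (by rw [Nat.mod_mod]; exact hkR)
        · -- middle
          have hkRc : k % R = c := by
            rcases Nat.lt_or_ge (k % R) P with h | h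
            · rw [Nat.mod_eq_of_lt h] at hkRP
              exact hkRP
            · have : k % R = P := by omega
              rw [this, Nat.mod_self] at hkRP
              omega
          have hkval : k = R + c := by
            have hd := Nat.div_add_mod k R
            have : k / R < 2 := by
              rw [Nat.div_lt_iff_lt_mul hR0]
              omega
            have h01 : k / R = 0 ∨ k / R = 1 := by
              rcases Nat.eq_zero_or_pos (k / R) with h | h
              · exact Or.inl h
              · exact Or.inr (by omega)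
            rcases h01 with h | h
            · rw [h, mul_zero] at hd; omega
            · rw [h, mul_one] at hd; omega
          have hcR : c < R := by
            have := Nat.mod_lt k hR0
            omega
          have hv2 : v = 2 * k := by omega
          rw [hv2]
          apply hmid k (by omega)
          intro n hn
          have h1 : 2 ^ (l - 1) < 2 ^ n := by rw [← hn, ← hRdef]; omega
          have h2 : 2 ^ n < 2 ^ l := by rw [← hn, ← hQdef]; omega
          have h3 := (Nat.pow_lt_pow_iff_right (by norm_num : 1 < 2)).1 h1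
          have h4 := (Nat.pow_lt_pow_iff_right (by norm_num : 1 < 2)).1 h2
          omega
    · -- m ≥ 2
      have hmQ : (m - 1) * Q + Q = m * Q := by
        obtain ⟨p, rfl⟩ : ∃ p, m = p + 1 := ⟨m - 1, by omega⟩
        rw [Nat.add_sub_cancel]
        ring
      have hmQ1 : 1 * Q ≤ (m - 1) * Q := Nat.mul_le_mul_right _ (by omega)
      rw [one_mul] at hmQ1
      have w1 : ((m - 1) * Q + P) % Q = P := by
        rw [Nat.mul_add_mod', Nat.mod_eq_of_lt hPltQ]
      have w2 : ((m - 1) * Q + P) % P = 0 := by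
        rw [Nat.add_mod_right]
        exact Nat.mod_eq_zero_of_dvd (hPQ.mul_left _)
      have w3 : (Q + P) % Q = P := by rw [Nat.add_mod_left, Nat.mod_eq_of_lt hPltQ]
      have w4 : (Q + P) % P = 0 := by
        rw [Nat.add_mod_right]
        exact Nat.mod_eq_zero_of_dvd hPQ
      rw [hm, hQdef]
      apply block2 hq l m k P hm2 (by omega)
      · rw [← hQdef]; omega
      · rw [← hQdef]
        exact IH _ _ (by omega) w2 hkP (by omega) (by omega)
      · rw [← hQdef]
        intro hQk
        have e3 : (k - Q) % P = c := by rw [sub_dvd_mod k Q P hPQ hQk, hkP]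
        have e4 : (k - Q) % Q = k % Q := sub_dvd_mod k Q Q dvd_rfl hQk
        exact IH _ _ (by omega) w2 e3 (by omega) (by omega)
      · rw [← hQdef]
        have e4 : k % Q % Q = k % Q := Nat.mod_mod _ _
        exact IH _ _ (by omega) w4 hkQP (by omega) (by omega)

end Pool.Agent.H14.Halv
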