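import Mathlib
import Pool.Agent.H14.Halv.Defs

/-!
# [H14 LG] Latin / Greek signs of totally singular spaces of half dimension

`B` symmetric nondegenerate on `V`, `dim V = 2k`, `2 ≠ 0`; `E₀` totally singular (t.s.) of dimension
`k`. Claim: `f W = (-1)^{dim (W ∩ E₀)}` for `W` t.s. of dimension `k`, `0` otherwise, is null of
strength `k`: for every `T` with `dim T < k`, `∑_{W ⊇ T} f W = 0`.

PROOF. Fix `T` with `dim T < k`.
(1) There is `z ∈ T^⊥` with `B z z ≠ 0`: otherwise `B x y = 0` on `T^⊥` by polarization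
(`B (x+y) (x+y) = 2 B x y`), so `T^⊥ ≤ T^⊥^⊥ = T` (`LinearMap.BilinForm.orthogonal_orthogonal`), but
`dim T^⊥ = 2k - dim T > k > dim T` (`LinearMap.BilinForm.finrank_orthogonal`).
(2) The reflection `r x = x - (2 B x z / B z z) z` is a linear involution preserving `B`, fixing `T`
pointwise (`Module.reflection` or by hand as a `LinearEquiv`). So `W ↦ W.map r` is an involution
(`Submodule.orderIsoMapComap` or `Finset.sum_involution`/`Fintype.sum_equiv`) of the t.s.
`k`-spaces containing `T` (it preserves `finrank`, t.s., and `T ≤ W`).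
(3) PARITY: for `W` t.s. with `dim W = k` and `W' = W.map r`:
`(-1)^{dim (W' ∩ E₀)} = - (-1)^{dim (W ∩ E₀)}`. Hence the sum `s` satisfies `s = -s`, so `s = 0`.
Proof of (3). `z ∉ W` (as `B z z ≠ 0`), and `z` is not orthogonal to `W` (else `z ∈ W^⊥ = W`, since
`dim W^⊥ = k` and `W ≤ W^⊥`). Let `M = W ∩ z^⊥` (a hyperplane of `W`, `r` is the identity on it), so
`M ≤ W ∩ W'`, and `W' ≠ W` (if `e ∈ W` with `B e z ≠ 0` and `r e ∈ W`, then `z ∈ W`). So
`M = W ∩ W'` has dimension `k - 1`, and `W + W'` has dimension `k + 1`, is contained in `M^⊥`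
(dimension `2k - (k-1) = k+1`), so `M^⊥ = W + W'`.
(a) Not both `W ∩ E₀ ⊄ M` and `W' ∩ E₀ ⊄ M`: if `a ∈ W ∩ E₀ \ M`, `a' ∈ W' ∩ E₀ \ M`, then
`B a a' = 0` (both in `E₀`), `W = M + ⟨a⟩`, `W' = M + ⟨a'⟩`, so `W + W'` is t.s. of dimension `k+1`,
impossible (a t.s. space `U` satisfies `U ≤ U^⊥`, `2 dim U ≤ 2k`).
(b) Not both `W ∩ E₀ ≤ M` and `W' ∩ E₀ ≤ M`: `dim (E₀ ∩ M^⊥) = 2k - dim (E₀ + M)
= 2k - (k + (k-1) - dim (E₀ ∩ M)) = 1 + dim (E₀ ∩ M)` (here `(E₀ + M)^⊥ = E₀^⊥ ∩ M^⊥ = E₀ ∩ M^⊥`),
so there is `w ∈ E₀ ∩ M^⊥`, `w ∉ M`. Write `w = e + e'`, `e ∈ W`, `e' ∈ W'`;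
`0 = B w w = 2 B e e'`. If `e ∉ M` and `e' ∉ M`, then `W + W'` is t.s. as in (a), impossible. So
`e ∈ M` or `e' ∈ M`, hence `w ∈ W'` or `w ∈ W`: `w ∈ W' ∩ E₀ \ M` or `w ∈ W ∩ E₀ \ M`.
(c) `dim (W ∩ E₀) = dim (M ∩ E₀)` if `W ∩ E₀ ≤ M` and `= dim (M ∩ E₀) + 1` otherwise (`M` is a
hyperplane of `W`); same for `W'`. So exactly one of the two dimensions is larger by one.

`Null` is defined in `Pool/Agent/H24/LSJoin.lean`.
-/

set_option autoImplicit false
set_option linter.unusedSectionVars false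
set_option linter.unusedVariables false
set_option linter.style.haveILetI false

open Module
open scoped Classical
open Pool.Agent.H24.LS

namespace Pool.Agent.H14.Halv

section LG

variable {F V : Type} [Field F] [Finite F] [AddCommGroup V] [Module F V] [Finite V]

private lemma lg_badd (B : LinearMap.BilinForm F V) (a b c d : V) :
    B (a + b) (c + d) = B a c + B a d + (B b c + B b d) := by
  simp only [map_add, LinearMap.add_apply]
  ring

private lemma lg_badd1 (B : LinearMap.BilinForm F V) (a b c : V) :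
    B (a + b) c = B a c + B b c := by
  simp [map_add, LinearMap.add_apply]

private lemma lg_finrank_orth (B : LinearMap.BilinForm F V) (hn : B.Nondegenerate)
    (U : Submodule F V) : finrank F (B.orthogonal U) + finrank F U = finrank F V := by
  have hfd : FiniteDimensional F V := inferInstance
  rw [LinearMap.BilinForm.finrank_orthogonal hn]
  have := Submodule.finrank_le U
  omega

private lemma lg_le_orth (B : LinearMap.BilinForm F V) (U : Submodule F V)
    (h : ∀ x ∈ U, ∀ y ∈ U, B x y = 0) : U ≤ B.orthogonal U := by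
  intro x hx
  rw [LinearMap.BilinForm.mem_orthogonal_iff]
  intro y hy
  exact h y hy x hx

private lemma lg_ts_dim (B : LinearMap.BilinForm F V) (hn : B.Nondegenerate) (k : ℕ)
    (hV : finrank F V = 2 * k) (U : Submodule F V)
    (h : ∀ x ∈ U, ∀ y ∈ U, B x y = 0) : finrank F U ≤ k := by
  have hfd : FiniteDimensional F V := inferInstance
  have h1 := Submodule.finrank_mono (lg_le_orth B U h)
  have h2 := lg_finrank_orth B hn U
  omega

private lemma lg_orth_eq (B : LinearMap.BilinForm F V) (hn : B.Nondegenerate) (k : ℕ)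
    (hV : finrank F V = 2 * k) (U : Submodule F V) (hU : finrank F U = k)
    (h : ∀ x ∈ U, ∀ y ∈ U, B x y = 0) : B.orthogonal U = U := by
  have hfd : FiniteDimensional F V := inferInstance
  symm
  apply Submodule.eq_of_le_of_finrank_eq (lg_le_orth B U h)
  have h2 := lg_finrank_orth B hn U
  omega

private lemma lg_sup_eq (M W X : Submodule F V) (hM : M ≤ W) (hX : X ≤ W)
    (hd : finrank F M + 1 = finrank F W) (hn : ¬ X ≤ M) : M ⊔ X = W := by
  have hfd : FiniteDimensional F V := inferInstance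
  apply Submodule.eq_of_le_of_finrank_le (sup_le hM hX)
  have hlt : M < M ⊔ X := by
    apply lt_of_le_of_ne le_sup_left
    intro he
    apply hn
    rw [he]
    exact le_sup_right
  have := Submodule.finrank_lt_finrank_of_lt hlt
  omega

private lemma lg_inter_eq (M W E : Submodule F V) (hM : M ≤ W) (h : W ⊓ E ≤ M) :
    finrank F (W ⊓ E : Submodule F V) = finrank F (M ⊓ E : Submodule F V) := by
  have : W ⊓ E = M ⊓ E :=
    le_antisymm (le_inf h inf_le_right) (inf_le_inf_right _ hM)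
  rw [this]

private lemma lg_inter_succ (M W E : Submodule F V) (hM : M ≤ W)
    (hd : finrank F M + 1 = finrank F W) (h : ¬ W ⊓ E ≤ M) :
    finrank F (W ⊓ E : Submodule F V) = finrank F (M ⊓ E : Submodule F V) + 1 := by
  have hfd : FiniteDimensional F V := inferInstance
  have h1 := lg_sup_eq M W (W ⊓ E) hM inf_le_left hd h
  have h2 := Submodule.finrank_sup_add_finrank_inf_eq M (W ⊓ E)
  have h3 : M ⊓ (W ⊓ E) = M ⊓ E := by
    rw [← inf_assoc, inf_eq_left.2 hM]
  rw [h1, h3] at h2
  omega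

private lemma lg_cross (B : LinearMap.BilinForm F V) (hs : B.IsSymm) (hn : B.Nondegenerate)
    (k : ℕ) (hV : finrank F V = 2 * k) (W W' : Submodule F V)
    (hW : finrank F W = k) (hW' : finrank F W' = k)
    (tW : ∀ x ∈ W, ∀ y ∈ W, B x y = 0) (tW' : ∀ x ∈ W', ∀ y ∈ W', B x y = 0)
    (hM : finrank F (W ⊓ W' : Submodule F V) + 1 = k)
    (e e' : V) (he : e ∈ W) (he' : e' ∈ W') (hne : e ∉ W') (hne' : e' ∉ W)
    (hB : B e e' = 0) : False := by
  have hfd : FiniteDimensional F V := inferInstance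
  have h1 : (W ⊓ W') ⊔ (F ∙ e) = W := by
    apply lg_sup_eq _ _ _ inf_le_left ((Submodule.span_singleton_le_iff_mem _ _).2 he)
      (by rw [hM, hW])
    intro h
    exact hne ((h (Submodule.mem_span_singleton_self e)).2)
  have h2 : (W ⊓ W') ⊔ (F ∙ e') = W' := by
    apply lg_sup_eq _ _ _ inf_le_right ((Submodule.span_singleton_le_iff_mem _ _).2 he')
      (by rw [hM, hW'])
    intro h
    exact hne' ((h (Submodule.mem_span_singleton_self e')).1)
  have h3 : ∀ w ∈ W, ∀ w' ∈ W', B w w' = 0 := by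
    intro w hw w' hw'
    have hw0 := hw
    have hw0' := hw'
    rw [← h1] at hw
    rw [← h2] at hw'
    obtain ⟨m, hm, x, hx, rfl⟩ := Submodule.mem_sup.1 hw
    obtain ⟨m', hm', x', hx', rfl⟩ := Submodule.mem_sup.1 hw'
    obtain ⟨c, rfl⟩ := Submodule.mem_span_singleton.1 hx
    obtain ⟨c', rfl⟩ := Submodule.mem_span_singleton.1 hx'
    have a1 : B m (m' + c' • e') = 0 := tW' m hm.2 _ hw0'
    have a2 : B (c • e) m' = 0 := tW _ (W.smul_mem c he) _ hm'.1
    have a3 : B (c • e) (c' • e') = 0 := by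
      rw [map_smul, map_smul, LinearMap.smul_apply, hB, smul_zero, smul_zero]
    rw [lg_badd1, a1, map_add, a2, a3]
    simp
  have h4 : finrank F (W ⊔ W' : Submodule F V) ≤ k := by
    apply lg_ts_dim B hn k hV
    intro x hx y hy
    obtain ⟨a, ha, b, hb, rfl⟩ := Submodule.mem_sup.1 hx
    obtain ⟨c, hc, d, hd, rfl⟩ := Submodule.mem_sup.1 hy
    have e1 := tW a ha c hc
    have e2 := h3 a ha d hd
    have e3 : B b c = 0 := by rw [hs.eq]; exact h3 c hc b hb
    have e4 := tW' b hb d hd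
    rw [lg_badd, e1, e2, e3, e4]
    simp
  have h5 := Submodule.finrank_sup_add_finrank_inf_eq W W'
  omega

private lemma lg_parity (B : LinearMap.BilinForm F V) (hs : B.IsSymm) (hn : B.Nondegenerate)
    (h2 : (2 : F) ≠ 0) (k : ℕ) (hV : finrank F V = 2 * k)
    (E₀ : Submodule F V) (hE₀ : finrank F E₀ = k)
    (hts : ∀ x ∈ E₀, ∀ y ∈ E₀, B x y = 0) (W W' : Submodule F V)
    (hW : finrank F W = k) (hW' : finrank F W' = k)
    (tW : ∀ x ∈ W, ∀ y ∈ W, B x y = 0) (tW' : ∀ x ∈ W', ∀ y ∈ W', B x y = 0)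
    (hM : finrank F (W ⊓ W' : Submodule F V) + 1 = k) :
    (-1 : ℤ) ^ finrank F (W ⊓ E₀ : Submodule F V)
      + (-1 : ℤ) ^ finrank F (W' ⊓ E₀ : Submodule F V) = 0 := by
  have hfd : FiniteDimensional F V := inferInstance
  have hS : B.orthogonal (W ⊓ W') = W ⊔ W' := by
    symm
    apply Submodule.eq_of_le_of_finrank_eq
    · apply sup_le
      · exact (lg_le_orth B W tW).trans (LinearMap.BilinForm.orthogonal_le inf_le_left)
      · exact (lg_le_orth B W' tW').trans (LinearMap.BilinForm.orthogonal_le inf_le_right)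
    · have a1 := lg_finrank_orth B hn (W ⊓ W')
      have a2 := Submodule.finrank_sup_add_finrank_inf_eq W W'
      omega
  have hinter : B.orthogonal (E₀ ⊔ (W ⊓ W')) = E₀ ⊓ B.orthogonal (W ⊓ W') := by
    apply le_antisymm
    · apply le_inf
      · refine (LinearMap.BilinForm.orthogonal_le le_sup_left).trans ?_
        rw [lg_orth_eq B hn k hV E₀ hE₀ hts]
      · exact LinearMap.BilinForm.orthogonal_le le_sup_right
    · intro x hx
      rw [LinearMap.BilinForm.mem_orthogonal_iff]
      intro y hy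
      obtain ⟨a, ha, b, hb, rfl⟩ := Submodule.mem_sup.1 hy
      have b1 : B a x = 0 := hts a ha x hx.1
      have b2 : B b x = 0 := (LinearMap.BilinForm.mem_orthogonal_iff.1 hx.2) b hb
      show B (a + b) x = 0
      rw [lg_badd1, b1, b2, add_zero]
  have hnot : ¬ (E₀ ⊓ B.orthogonal (W ⊓ W') ≤ E₀ ⊓ (W ⊓ W')) := by
    intro hle
    have c1 := Submodule.finrank_mono hle
    have c2 := lg_finrank_orth B hn (E₀ ⊔ (W ⊓ W'))
    rw [hinter] at c2
    have c3 := Submodule.finrank_sup_add_finrank_inf_eq E₀ (W ⊓ W')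
    omega
  have hexw : ∃ w, w ∈ E₀ ∧ w ∈ W ⊔ W' ∧ w ∉ W ⊓ W' := by
    by_contra hcon
    push Not at hcon
    apply hnot
    intro x hx
    refine ⟨hx.1, hcon x hx.1 ?_⟩
    rw [← hS]
    exact hx.2
  have hor : (¬ W ⊓ E₀ ≤ W ⊓ W') ∨ (¬ W' ⊓ E₀ ≤ W ⊓ W') := by
    obtain ⟨w, hwE, hwS, hwM⟩ := hexw
    obtain ⟨e, he, e', he', rfl⟩ := Submodule.mem_sup.1 hwS
    have d1 : B (e + e') (e + e') = 0 := hts _ hwE _ hwE
    have d2 : B e e = 0 := tW e he e he
    have d3 : B e' e' = 0 := tW' e' he' e' he'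
    have d4 : B e' e = B e e' := hs.eq e' e
    have d5 : B e e' = 0 := by
      rw [lg_badd, d2, d3, d4] at d1
      have : (2 : F) * B e e' = 0 := by linear_combination d1
      rcases mul_eq_zero.1 this with h | h
      · exact absurd h h2
      · exact h
    by_cases he1 : e ∈ W'
    · right
      intro hle
      exact hwM (hle ⟨W'.add_mem he1 he', hwE⟩)
    · by_cases he2 : e' ∈ W
      · left
        intro hle
        exact hwM (hle ⟨W.add_mem he he2, hwE⟩)
      · exact absurd (lg_cross B hs hn k hV W W' hW hW' tW tW' hM e e' he he' he1 he2 d5) id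
  have hnand : ¬ ((¬ W ⊓ E₀ ≤ W ⊓ W') ∧ (¬ W' ⊓ E₀ ≤ W ⊓ W')) := by
    rintro ⟨g1, g2⟩
    obtain ⟨a, ha, ha'⟩ := SetLike.not_le_iff_exists.1 g1
    obtain ⟨b, hb, hb'⟩ := SetLike.not_le_iff_exists.1 g2
    exact lg_cross B hs hn k hV W W' hW hW' tW tW' hM a b ha.1 hb.1
      (fun h => ha' ⟨ha.1, h⟩) (fun h => hb' ⟨h, hb.1⟩) (hts a ha.2 b hb.2)
  have hsym : finrank F (W ⊓ W' : Submodule F V) + 1 = finrank F W := by rw [hM, hW]
  have hsym' : finrank F (W ⊓ W' : Submodule F V) + 1 = finrank F W' := by rw [hM, hW']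
  by_cases g1 : W ⊓ E₀ ≤ W ⊓ W'
  · have g2 : ¬ W' ⊓ E₀ ≤ W ⊓ W' := by
      rcases hor with h | h
      · exact absurd g1 h
      · exact h
    rw [lg_inter_eq _ _ _ inf_le_left g1, lg_inter_succ _ _ _ inf_le_right hsym' g2, pow_succ]
    ring
  · have g2 : W' ⊓ E₀ ≤ W ⊓ W' := by
      by_contra h
      exact hnand ⟨g1, h⟩
    rw [lg_inter_eq _ _ _ inf_le_right g2, lg_inter_succ _ _ _ inf_le_left hsym g1, pow_succ]
    ring

private lemma lg_exists_z (B : LinearMap.BilinForm F V) (hs : B.IsSymm) (hn : B.Nondegenerate)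
    (h2 : (2 : F) ≠ 0) (k : ℕ) (hV : finrank F V = 2 * k) (T : Submodule F V)
    (hT : finrank F T < k) : ∃ z, (∀ t ∈ T, B t z = 0) ∧ B z z ≠ 0 := by
  have hfd : FiniteDimensional F V := inferInstance
  by_contra hcon
  push Not at hcon
  have h1 : ∀ x ∈ B.orthogonal T, ∀ y ∈ B.orthogonal T, B x y = 0 := by
    intro x hx y hy
    have hx1 : B x x = 0 := hcon x (fun t ht => (LinearMap.BilinForm.mem_orthogonal_iff.1 hx) t ht)
    have hy1 : B y y = 0 := hcon y (fun t ht => (LinearMap.BilinForm.mem_orthogonal_iff.1 hy) t ht)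
    have hxy : B (x + y) (x + y) = 0 := hcon (x + y) (fun t ht =>
      (LinearMap.BilinForm.mem_orthogonal_iff.1 ((B.orthogonal T).add_mem hx hy)) t ht)
    have hc : B y x = B x y := hs.eq y x
    rw [lg_badd, hx1, hy1, hc] at hxy
    have : (2 : F) * B x y = 0 := by linear_combination hxy
    rcases mul_eq_zero.1 this with h | h
    · exact absurd h h2
    · exact h
  have h3 := lg_ts_dim B hn k hV _ h1
  have h4 := lg_finrank_orth B hn T
  omega

end LG

theorem latgreek {F V : Type} [Field F] [Finite F] [AddCommGroup V] [Module F V] [Finite V]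
    (B : LinearMap.BilinForm F V) (hs : B.IsSymm) (hn : B.Nondegenerate) (h2 : (2 : F) ≠ 0)
    (k : ℕ) (hV : finrank F V = 2 * k) (E₀ : Submodule F V) (hE₀ : finrank F E₀ = k)
    (hts : ∀ x ∈ E₀, ∀ y ∈ E₀, B x y = 0) :
    Null k (fun W : Submodule F V => if (finrank F W = k ∧ ∀ x ∈ W, ∀ y ∈ W, B x y = 0)
      then (-1 : ℤ) ^ finrank F (W ⊓ E₀ : Submodule F V) else 0) := by
  have hfd : FiniteDimensional F V := inferInstance
  intro T hT
  obtain ⟨z, hzT, hzz⟩ := lg_exists_z B hs hn h2 k hV T hT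
  -- the reflection
  let r : V →ₗ[F] V := LinearMap.id - ((B.flip z).smulRight ((2 * (B z z)⁻¹) • z))
  have hr : ∀ x, r x = x - (B x z * (2 * (B z z)⁻¹)) • z := by
    intro x
    simp [r, smul_smul]
  have hrz : ∀ x, B (r x) z = - B x z := by
    intro x
    rw [hr, map_sub, LinearMap.sub_apply, map_smul, LinearMap.smul_apply, smul_eq_mul]
    field_simp
    ring
  have hrr : Function.Involutive r := by
    intro x
    rw [hr (r x), hrz, hr x]
    module
  have hrB : ∀ x y, B (r x) (r y) = B x y := by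
    intro x y
    rw [hr y, map_sub, map_smul, hrz, hr x, map_sub, LinearMap.sub_apply, map_smul,
      LinearMap.smul_apply, smul_eq_mul, smul_eq_mul, hs.eq z y]
    ring
  have hrT : ∀ t ∈ T, r t = t := by
    intro t ht
    rw [hr, hzT t ht]
    simp
  let e : V ≃ₗ[F] V := LinearEquiv.ofInvolutive r hrr
  have hfr : ∀ W : Submodule F V, finrank F (W.map r) = finrank F W := by
    intro W
    exact LinearEquiv.finrank_map_eq e W
  have hmm : ∀ W : Submodule F V, (W.map r).map r = W := by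
    intro W
    rw [← Submodule.map_comp]
    have : r ∘ₗ r = LinearMap.id := by
      ext x
      exact hrr x
    rw [this, Submodule.map_id]
  have hTW : ∀ W : Submodule F V, T ≤ W → T ≤ W.map r := by
    intro W h t ht
    exact ⟨t, h ht, hrT t ht⟩
  have hP : ∀ W : Submodule F V, (finrank F W = k ∧ ∀ x ∈ W, ∀ y ∈ W, B x y = 0) →
      (finrank F (W.map r) = k ∧ ∀ x ∈ W.map r, ∀ y ∈ W.map r, B x y = 0) := by
    rintro W ⟨g1, g2⟩
    refine ⟨by rw [hfr, g1], ?_⟩
    rintro _ ⟨x, hx, rfl⟩ _ ⟨y, hy, rfl⟩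
    rw [hrB]
    exact g2 x hx y hy
  have hdim : ∀ W : Submodule F V, (finrank F W = k ∧ ∀ x ∈ W, ∀ y ∈ W, B x y = 0) →
      finrank F (W ⊓ W.map r : Submodule F V) + 1 = k := by
    rintro W ⟨g1, g2⟩
    have hz0 : z ≠ 0 := by
      rintro rfl
      apply hzz
      simp
    have hzW : z ∉ W := fun h => hzz (g2 z h z h)
    have hWH : W ⊓ W.map r = W ⊓ B.orthogonal (F ∙ z) := by
      apply le_antisymm
      · rintro x ⟨hx, ⟨w, hw, rfl⟩⟩
        refine ⟨hx, ?_⟩
        show r w ∈ B.orthogonal (F ∙ z)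
        rw [LinearMap.BilinForm.mem_orthogonal_iff]
        intro y hy
        obtain ⟨c, rfl⟩ := Submodule.mem_span_singleton.1 hy
        rw [map_smul, LinearMap.smul_apply, hs.eq z (r w)]
        have hx' : w - (B w z * (2 * (B z z)⁻¹)) • z ∈ W := by
          have := hx
          rw [SetLike.mem_coe, hr] at this
          exact this
        have hcz : (B w z * (2 * (B z z)⁻¹)) • z ∈ W := by
          have := W.sub_mem hw hx'
          rwa [sub_sub_cancel] at this
        have hc0 : B w z * (2 * (B z z)⁻¹) = 0 := by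
          by_contra hne
          exact hzW ((W.smul_mem_iff hne).1 hcz)
        have : B w z = 0 := by
          rcases mul_eq_zero.1 hc0 with h | h
          · exact h
          · rcases mul_eq_zero.1 h with h | h
            · exact absurd h h2
            · exact absurd (inv_eq_zero.1 h) hzz
        rw [hrz, this]
        simp
      · rintro x ⟨hx, hx2⟩
        refine ⟨hx, ⟨x, hx, ?_⟩⟩
        have : B z x = 0 := (LinearMap.BilinForm.mem_orthogonal_iff.1 hx2) z
          (Submodule.mem_span_singleton_self z)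
        rw [hr, hs.eq x z, this]
        simp
    have f1 := lg_finrank_orth B hn (F ∙ z)
    rw [finrank_span_singleton hz0] at f1
    have hnle : ¬ W ≤ B.orthogonal (F ∙ z) := by
      intro hle
      apply hzW
      rw [← lg_orth_eq B hn k hV W g1 g2]
      rw [LinearMap.BilinForm.mem_orthogonal_iff]
      intro w hw
      have := (LinearMap.BilinForm.mem_orthogonal_iff.1 (hle hw)) z
        (Submodule.mem_span_singleton_self z)
      show B w z = 0
      rw [hs.eq w z]
      exact this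
    have hlt : B.orthogonal (F ∙ z) < W ⊔ B.orthogonal (F ∙ z) := by
      apply lt_of_le_of_ne le_sup_right
      intro he
      apply hnle
      rw [he]
      exact le_sup_left
    have f2 := Submodule.finrank_lt_finrank_of_lt hlt
    have f3 := Submodule.finrank_le (W ⊔ B.orthogonal (F ∙ z))
    have f4 := Submodule.finrank_sup_add_finrank_inf_eq W (B.orthogonal (F ∙ z))
    rw [hWH]
    omega
  have hkey : ∀ W : Submodule F V,
      (if T ≤ W then (if (finrank F W = k ∧ ∀ x ∈ W, ∀ y ∈ W, B x y = 0)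
        then (-1 : ℤ) ^ finrank F (W ⊓ E₀ : Submodule F V) else 0) else 0)
      + (if T ≤ W.map r then
          (if (finrank F (W.map r) = k ∧ ∀ x ∈ W.map r, ∀ y ∈ W.map r, B x y = 0)
        then (-1 : ℤ) ^ finrank F (W.map r ⊓ E₀ : Submodule F V) else 0) else 0) = 0 := by
    intro W
    have hT2 : T ≤ W.map r → T ≤ W := by
      intro h
      have := hTW _ h
      rwa [hmm] at this
    have hP2 : (finrank F (W.map r) = k ∧ ∀ x ∈ W.map r, ∀ y ∈ W.map r, B x y = 0) →
        (finrank F W = k ∧ ∀ x ∈ W, ∀ y ∈ W, B x y = 0) := by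
      intro h
      have := hP _ h
      rwa [hmm] at this
    by_cases hTle : T ≤ W
    · rw [if_pos hTle, if_pos (hTW W hTle)]
      by_cases hPW : (finrank F W = k ∧ ∀ x ∈ W, ∀ y ∈ W, B x y = 0)
      · rw [if_pos hPW, if_pos (hP W hPW)]
        exact lg_parity B hs hn h2 k hV E₀ hE₀ hts W (W.map r) hPW.1 (hP W hPW).1 hPW.2
          (hP W hPW).2 (hdim W hPW)
      · rw [if_neg hPW, if_neg (fun h => hPW (hP2 h)), add_zero]
    · rw [if_neg hTle, if_neg (fun h => hTle (hT2 h)), add_zero]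
  refine Finset.sum_involution (fun W _ => W.map r) ?_ ?_ ?_ ?_
  · intro W _
    exact hkey W
  · intro W _ hne heq
    apply hne
    have := hkey W
    rw [heq] at this
    exact add_self_eq_zero.1 this
  · intro W _
    exact Finset.mem_univ _
  · intro W _
    exact hmm W

end Pool.Agent.H14.Halv
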