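import Mathlib
import Pool.Agent.H14.Halv.Defs

/-!
# [H14 ORB] A sign on Singer orbits, antisymmetric under `⊥`

PROOF. Let `Kˣ` act on subspaces of `K` by `tw` (a `MulAction`; `tw_one`, `tw_mul`), let `Ω` be the
(finite) type of orbits (`MulAction.orbitRel.Quotient`, or the quotient by the `Setoid`
`W ~ W' ↔ ∃ u, tw u W = W'`). `perp (tw u W) = tw u⁻¹ (perp W)` (`perp_tw`), so `perp` induces a map
`ι : Ω → Ω`, an involution by `perp_perp`. Take an injection `e : Ω → ℕ` (e.g. from
`Finite.equivFin`) and put
`φ W = if finrank F W = k then Int.sign ((e [W] : ℤ) - e (ι [W])) else 0`.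
* `φ (tw u W) = φ W` (`finrank_tw`);
* `φ (perp W) = - φ W` : `ι ι = id`, and `finrank (perp W) = k ↔ finrank W = k` (`finrank_perp`, `hK`);
* `φ W = 0` if `[W] = ι [W] = [perp W]`, i.e. if `∃ u, tw u W = perp W`; otherwise `e [W] ≠ e (ι [W])`
  and the sign is `± 1`.
-/

set_option autoImplicit false
set_option linter.unusedSectionVars false
set_option linter.unusedVariables false
set_option linter.style.haveILetI false

open Module
open scoped Classical
open Pool.Agent.H24.LS

namespace Pool.Agent.H14.Halv

variable {F : Type} [Field F] [Finite F] {K : Type} [Field K] [Algebra F K] [Finite K]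

/-- the orbit relation of the Singer group -/
def orbSetoid (F : Type) [Field F] [Finite F] (K : Type) [Field K] [Algebra F K] [Finite K] :
    Setoid (Submodule F K) where
  r W W' := ∃ u : Kˣ, tw u W = W'
  iseqv :=
    { refl := fun W => ⟨1, tw_one W⟩
      symm := by
        rintro W W' ⟨u, rfl⟩
        exact ⟨u⁻¹, by rw [← tw_mul, inv_mul_cancel, tw_one]⟩
      trans := by
        rintro W W' W'' ⟨u, rfl⟩ ⟨v, rfl⟩
        exact ⟨v * u, by rw [tw_mul]⟩ }

theorem exists_orbit_sign {k : ℕ} (hK : finrank F K = 2 * k) :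
    ∃ φ : Submodule F K → ℤ, (∀ W, φ W ≠ 0 → finrank F W = k) ∧
      (∀ (u : Kˣ) (W : Submodule F K), φ (tw u W) = φ W) ∧
      (∀ W, φ (perp W) = - φ W) ∧
      (∀ W : Submodule F K, finrank F W = k → (∃ u : Kˣ, tw u W = perp W) → φ W = 0) ∧
      (∀ W : Submodule F K, finrank F W = k → (¬ ∃ u : Kˣ, tw u W = perp W) →
        φ W = 1 ∨ φ W = -1) := by
  have hfin : Finite (Submodule F K) := Finite.of_injective _ SetLike.coe_injective
  have hfq : Finite (Quotient (orbSetoid F K)) := inferInstance
  obtain ⟨n, ⟨e⟩⟩ := Finite.exists_equiv_fin (Quotient (orbSetoid F K))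
  let E : Submodule F K → ℤ := fun W => ((e (Quotient.mk (orbSetoid F K) W) : ℕ) : ℤ)
  have hE : ∀ W W' : Submodule F K, E W = E W' ↔ ∃ u : Kˣ, tw u W = W' := by
    intro W W'
    constructor
    · intro h
      have h1 : ((e (Quotient.mk (orbSetoid F K) W) : ℕ) : ℤ)
        = ((e (Quotient.mk (orbSetoid F K) W') : ℕ) : ℤ) := h
      have h2 : e (Quotient.mk (orbSetoid F K) W) = e (Quotient.mk (orbSetoid F K) W') :=
        Fin.ext (by exact_mod_cast h1)
      exact Quotient.exact (e.injective h2)
    · intro h
      have h2 : (Quotient.mk (orbSetoid F K) W) = (Quotient.mk (orbSetoid F K) W') :=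
        Quotient.sound h
      show ((e (Quotient.mk (orbSetoid F K) W) : ℕ) : ℤ)
        = ((e (Quotient.mk (orbSetoid F K) W') : ℕ) : ℤ)
      rw [h2]
  have hEtw : ∀ (u : Kˣ) (W : Submodule F K), E (tw u W) = E W := by
    intro u W
    exact ((hE W (tw u W)).2 ⟨u, rfl⟩).symm
  have hEptw : ∀ (u : Kˣ) (W : Submodule F K), E (perp (tw u W)) = E (perp W) := by
    intro u W
    rw [perp_tw, hEtw]
  refine ⟨fun W => if finrank F W = k then Int.sign (E W - E (perp W)) else 0, ?_, ?_, ?_, ?_, ?_⟩
  · intro W h
    by_contra hk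
    exact h (if_neg hk)
  · intro u W
    show (if finrank F (tw u W) = k then Int.sign (E (tw u W) - E (perp (tw u W))) else 0)
      = if finrank F W = k then Int.sign (E W - E (perp W)) else 0
    rw [finrank_tw, hEtw, hEptw]
  · intro W
    show (if finrank F (perp W) = k then Int.sign (E (perp W) - E (perp (perp W))) else 0)
      = - if finrank F W = k then Int.sign (E W - E (perp W)) else 0
    have hp := finrank_perp W
    rw [perp_perp]
    by_cases hk : finrank F W = k
    · have hk' : finrank F (perp W) = k := by omega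
      rw [if_pos hk, if_pos hk', ← Int.sign_neg, neg_sub]
    · have hk' : ¬ finrank F (perp W) = k := by omega
      rw [if_neg hk, if_neg hk', neg_zero]
  · intro W hk h
    show (if finrank F W = k then Int.sign (E W - E (perp W)) else 0) = 0
    rw [if_pos hk, (hE W (perp W)).2 h, sub_self, Int.sign_zero]
  · intro W hk h
    show (if finrank F W = k then Int.sign (E W - E (perp W)) else 0) = 1 ∨
      (if finrank F W = k then Int.sign (E W - E (perp W)) else 0) = -1
    rw [if_pos hk]
    have hne : E W - E (perp W) ≠ 0 := by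
      intro h0
      exact h ((hE W (perp W)).1 (sub_eq_zero.1 h0))
    rcases lt_or_gt_of_ne hne with h1 | h1
    · right
      exact Int.sign_eq_neg_one_of_neg h1
    · left
      exact Int.sign_eq_one_of_pos h1

end Pool.Agent.H14.Halv
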