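import Mathlib
import Pool.Agent.H14.Halv.Defs

/-!
# [H14 RHO] Signs on a cyclic group with coset sums `± 1`

`K/F` finite fields, `|F| = q` odd, `[K:F] = 2k`, `k` odd. There is `ρ : Kˣ → ℤ` such that for every
intermediate field `S` with `[S:F] ∣ k`, the sum of `ρ` over every coset `u Sˣ` is `± 1`.

PROOF. `Kˣ` is cyclic of order `n = q^{2k} - 1`; let `γ` be a generator. Put `s = q^k + 1`,
`n = s (q^k - 1)`, `N = n / (q - 1) = s * (1 + q + ... + q^{k-1})`. For `0 ≤ i < n` put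
`ρ (γ^i) = (-1)^{⌊i/s⌋}` if `i < N`, and `0` if `i ≥ N` (every `v : Kˣ` is `γ^i` for exactly one such
`i`).
Let `S` have degree `d ∣ k`, `m = |Sˣ| = q^d - 1` (`m ∣ n`, and `k/d` odd). `Sˣ` is the set of
`x ∈ Kˣ` with `x^m = 1` (⊆ clear, and a cyclic group has at most `m` such elements,
`IsCyclic.card_pow_eq_one_le`), i.e. `γ^i ∈ Sˣ ↔ n ∣ i m ↔ w ∣ i` with
`w = n / m = s t`, `t = (q^k - 1)/(q^d - 1) = ∑_{j < k/d} q^{dj}`, which is ODD (`k/d` odd number of
odd terms). Let `u = γ^{i₀}`. Then `γ^i ∈ u Sˣ ↔ i ≡ i₀ mod w`. Put `r = i₀ % w`. `N = w c` with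
`c = (q^d - 1)/(q - 1) = ∑_{j<d} q^j`, ODD (`d` odd as a divisor of `k`). So the sum is
`∑_{i < N, i ≡ r mod w} (-1)^{⌊i/s⌋} = ∑_{j < c} (-1)^{⌊(r + w j)/s⌋}`
`= ∑_{j<c} (-1)^{⌊r/s⌋ + t j} = (-1)^{⌊r/s⌋} ∑_{j<c} (-1)^j = (-1)^{⌊r/s⌋}`.

(Any other proof is fine; only the statement is used. Useful: `Nat.geomSum_eq`, `odd_geom` in
`Pool/Agent/H24/LSSinger.lean`, `Module.natCard_eq_pow_finrank`, `Nat.card_units`.)
-/

set_option autoImplicit false
set_option linter.unusedSectionVars false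
set_option linter.unusedVariables false
set_option linter.style.haveILetI false

open Module
open scoped Classical
open Pool.Agent.H24.LS

namespace Pool.Agent.H14.Halv

variable {F : Type} [Field F] [Finite F] {K : Type} [Field K] [Algebra F K] [Finite K]

lemma sum_mod_range (f : ℕ → ℤ) (w r : ℕ) (hr : r < w) (c : ℕ) :
    ∑ i ∈ Finset.range (w * c), (if i % w = r then f i else 0) =
      ∑ j ∈ Finset.range c, f (r + w * j) := by
  induction c with
  | zero => simp
  | succ c ih =>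
    rw [Nat.mul_succ, Finset.sum_range_add, ih, Finset.sum_range_succ]
    congr 1
    rw [Finset.sum_eq_single r]
    · rw [Nat.mul_add_mod, Nat.mod_eq_of_lt hr, if_pos rfl, add_comm]
    · intro i hi hne
      rw [Nat.mul_add_mod, Nat.mod_eq_of_lt (Finset.mem_range.1 hi), if_neg hne]
    · intro h
      exact absurd (Finset.mem_range.2 hr) h

/-- the alternating sum over a residue class -/
lemma sum_alt (s t c i₀ : ℕ) (hs : 0 < s) (ht : Odd t) (hc : Odd c) :
    ∑ i ∈ Finset.range (s * t * c), (if i % (s * t) = i₀ % (s * t) then (-1 : ℤ) ^ (i / s) else 0) =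
      (-1) ^ (i₀ % (s * t) / s) := by
  have hw : 0 < s * t := Nat.mul_pos hs ht.pos
  rw [sum_mod_range (fun i => (-1 : ℤ) ^ (i / s)) (s * t) (i₀ % (s * t)) (Nat.mod_lt _ hw) c]
  have h1 : ∀ j ∈ Finset.range c, (-1 : ℤ) ^ ((i₀ % (s * t) + s * t * j) / s) =
      (-1) ^ (i₀ % (s * t) / s) * (-1) ^ j := by
    intro j _
    rw [mul_assoc, Nat.add_mul_div_left _ _ hs, pow_add, pow_mul, ht.neg_one_pow]
  rw [Finset.sum_congr rfl h1, ← Finset.mul_sum, neg_one_geom_sum,
    if_neg (Nat.not_even_iff_odd.2 hc), mul_one]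

/-- membership in a subfield by powers -/
lemma mem_iff_pow (S : IntermediateField F K) (m : ℕ) (hm0 : 0 < m)
    (hm : m = Nat.card F ^ finrank F S - 1) (x : Kˣ) : ((x : K) ∈ S) ↔ x ^ m = 1 := by
  have fK : Fintype K := Fintype.ofFinite K
  have hS : Nat.card Sˣ = m := by
    rw [Nat.card_units, Module.natCard_eq_pow_finrank (K := F), hm]
  have fS : Fintype Sˣ := Fintype.ofFinite _
  have h1 : ∀ y : Sˣ, y ^ m = 1 := fun y => by rw [← hS]; exact pow_card_eq_one'
  have hinj : Function.Injective (Units.map (algebraMap S K).toMonoidHom) := by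
    apply Units.map_injective
    exact (algebraMap S K).injective
  have hsub : (Finset.univ : Finset Sˣ).image (Units.map (algebraMap S K).toMonoidHom) ⊆
      (Finset.univ : Finset Kˣ).filter (fun a => a ^ m = 1) := by
    intro a ha
    obtain ⟨y, -, rfl⟩ := Finset.mem_image.1 ha
    rw [Finset.mem_filter]
    refine ⟨Finset.mem_univ _, ?_⟩
    rw [← map_pow, h1 y, map_one]
  have heq : (Finset.univ : Finset Sˣ).image (Units.map (algebraMap S K).toMonoidHom) =
      (Finset.univ : Finset Kˣ).filter (fun a => a ^ m = 1) := by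
    apply Finset.eq_of_subset_of_card_le hsub
    rw [Finset.card_image_of_injective _ hinj, Finset.card_univ, ← Nat.card_eq_fintype_card, hS]
    exact IsCyclic.card_pow_eq_one_le hm0
  constructor
  · intro hx
    have hx0 : (⟨(x : K), hx⟩ : S) ≠ 0 := by
      intro h
      have := congrArg Subtype.val h
      exact x.ne_zero this
    have h2 : x = Units.map (algebraMap S K).toMonoidHom (Units.mk0 ⟨(x : K), hx⟩ hx0) := by
      ext
      rfl
    rw [h2, ← map_pow, h1, map_one]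
  · intro hx
    have h3 : x ∈ (Finset.univ : Finset Sˣ).image (Units.map (algebraMap S K).toMonoidHom) := by
      rw [heq]
      exact Finset.mem_filter.2 ⟨Finset.mem_univ _, hx⟩
    obtain ⟨y, -, rfl⟩ := Finset.mem_image.1 h3
    exact (y : S).2

theorem exists_rho {k : ℕ} (hq : Odd (Nat.card F)) (hk : Odd k) (hK : finrank F K = 2 * k) :
    ∃ ρ : Kˣ → ℤ, ∀ S : IntermediateField F K, finrank F S ∣ k → ∀ u : Kˣ,
      (∑ v : Kˣ, if ((v : K) * ((u⁻¹ : Kˣ) : K) ∈ S) then ρ v else 0) = 1 ∨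
      (∑ v : Kˣ, if ((v : K) * ((u⁻¹ : Kˣ) : K) ∈ S) then ρ v else 0) = -1 := by
  set q := Nat.card F with hqdef
  have hq2 : 2 ≤ q := Finite.one_lt_card
  obtain ⟨γ, hγ⟩ := IsCyclic.exists_generator (α := Kˣ)
  have hn : orderOf γ = Nat.card Kˣ := orderOf_eq_card_of_forall_mem_zpowers hγ
  have hcard : Nat.card Kˣ = q ^ (2 * k) - 1 := by
    rw [Nat.card_units, Module.natCard_eq_pow_finrank (K := F), hK]
  set s := q ^ k + 1 with hs
  have hs0 : 0 < s := Nat.succ_pos _
  set G := ∑ j ∈ Finset.range k, q ^ j with hG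
  have hq1 : 0 < q - 1 := by omega
  have hGk : G * (q - 1) = q ^ k - 1 := geom_sum_mul_of_one_le (by omega) k
  have hk0 : 0 < k := hk.pos
  have hqk : 1 < q ^ k := Nat.one_lt_pow hk0.ne' (by omega)
  have hcard2 : Nat.card Kˣ = s * (q ^ k - 1) := by
    rw [hcard, hs, mul_comm 2 k, pow_mul, ← Nat.sq_sub_sq (q ^ k) 1, one_pow]
  have hNle : s * G ≤ Nat.card Kˣ := by
    rw [hcard2, ← hGk]
    exact Nat.mul_le_mul_left s (Nat.le_mul_of_pos_right G hq1)
  have hn0 : 0 < Nat.card Kˣ := by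
    rw [hcard2]
    exact Nat.mul_pos hs0 (by omega)
  -- discrete logarithm
  have hlog : ∀ v : Kˣ, ∃ i < Nat.card Kˣ, γ ^ i = v := by
    intro v
    have h1 : v ∈ Submonoid.powers γ := mem_powers_iff_mem_zpowers.2 (hγ v)
    obtain ⟨i, hi⟩ := h1
    have hi' : γ ^ i = v := hi
    refine ⟨i % Nat.card Kˣ, Nat.mod_lt _ hn0, ?_⟩
    rw [← hi', ← hn, pow_mod_orderOf]
  choose lg hlg1 hlg2 using hlog
  have hlgpow : ∀ i < Nat.card Kˣ, lg (γ ^ i) = i := by
    intro i hi
    have h1 := hlg2 (γ ^ i)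
    rw [pow_eq_pow_iff_modEq, hn] at h1
    have h2 := hlg1 (γ ^ i)
    unfold Nat.ModEq at h1
    rwa [Nat.mod_eq_of_lt h2, Nat.mod_eq_of_lt hi] at h1
  refine ⟨fun v => if lg v < s * G then (-1) ^ (lg v / s) else 0, ?_⟩
  intro S hS u
  obtain ⟨e, he⟩ := hS
  set d := finrank F S with hd
  have hk2 : Odd (d * e) := he ▸ hk
  have hdo : Odd d := (Nat.odd_mul.1 hk2).1
  have heo : Odd e := (Nat.odd_mul.1 hk2).2
  have hd0 : 0 < d := hdo.pos
  have hqd : 1 < q ^ d := Nat.one_lt_pow hd0.ne' (by omega)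
  set m := q ^ d - 1 with hm
  have hm0 : 0 < m := by omega
  set t := ∑ j ∈ Finset.range e, (q ^ d) ^ j with ht
  set c := ∑ j ∈ Finset.range d, q ^ j with hc
  have hto : Odd t := odd_geom _ _ heo
  have hco : Odd c := odd_geom _ _ hdo
  have htm : t * m = q ^ k - 1 := by
    rw [he, pow_mul]
    exact geom_sum_mul_of_one_le (by omega) e
  have hcm : c * (q - 1) = m := geom_sum_mul_of_one_le (by omega) d
  have hGtc : G = t * c := by
    apply Nat.eq_of_mul_eq_mul_right hq1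
    rw [hGk, mul_assoc, hcm, htm]
  have hnw : Nat.card Kˣ = s * t * m := by rw [hcard2, ← htm, mul_assoc]
  have hmem : ∀ i : ℕ, (((γ ^ i : Kˣ) : K) * ((u⁻¹ : Kˣ) : K) ∈ S) ↔
      i % (s * t) = lg u % (s * t) := by
    intro i
    rw [← Units.val_mul, mem_iff_pow S m hm0 (by rw [hm]), mul_pow, inv_pow, mul_inv_eq_one]
    conv_lhs => rw [← hlg2 u]
    rw [← pow_mul, ← pow_mul, pow_eq_pow_iff_modEq, hn, hnw,
      Nat.ModEq.mul_right_cancel_iff' hm0.ne']
    exact Iff.rfl
  have hsum : (∑ v : Kˣ, if ((v : K) * ((u⁻¹ : Kˣ) : K) ∈ S) then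
      (if lg v < s * G then (-1 : ℤ) ^ (lg v / s) else 0) else 0) =
      ∑ i ∈ Finset.range (Nat.card Kˣ), (if (((γ ^ i : Kˣ) : K) * ((u⁻¹ : Kˣ) : K) ∈ S) then
      (if i < s * G then (-1 : ℤ) ^ (i / s) else 0) else 0) := by
    symm
    apply Finset.sum_nbij' (fun i => γ ^ i) (fun v => lg v)
    · intro i _
      exact Finset.mem_univ _
    · intro v _
      exact Finset.mem_range.2 (hlg1 v)
    · intro i hi
      exact hlgpow i (Finset.mem_range.1 hi)
    · intro v _
      exact hlg2 v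
    · intro i hi
      rw [hlgpow i (Finset.mem_range.1 hi)]
  have hsum2 : ∑ i ∈ Finset.range (Nat.card Kˣ), (if (((γ ^ i : Kˣ) : K) * ((u⁻¹ : Kˣ) : K) ∈ S) then
      (if i < s * G then (-1 : ℤ) ^ (i / s) else 0) else 0) =
      ∑ i ∈ Finset.range (s * t * c), (if i % (s * t) = lg u % (s * t) then (-1 : ℤ) ^ (i / s) else 0) := by
    have h1 : s * t * c = s * G := by rw [hGtc, mul_assoc]
    rw [h1]
    symm
    have h2 : Finset.range (s * G) ⊆ Finset.range (Nat.card Kˣ) := Finset.range_mono hNle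
    rw [← Finset.sum_subset h2 (f := fun i => (if (((γ ^ i : Kˣ) : K) * ((u⁻¹ : Kˣ) : K) ∈ S) then
      (if i < s * G then (-1 : ℤ) ^ (i / s) else 0) else 0))]
    · apply Finset.sum_congr rfl
      intro i hi
      rw [if_pos (Finset.mem_range.1 hi)]
      simp only [hmem]
    · intro i _ hi
      rw [if_neg (fun h => hi (Finset.mem_range.2 h)), ite_self]
  have hfin := sum_alt s t c (lg u) hs0 hto hco
  have hall := hsum.trans (hsum2.trans hfin)
  rcases neg_one_pow_eq_or ℤ (lg u % (s * t) / s) with h | h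
  · left
    rw [h] at hall
    exact hall
  · right
    rw [h] at hall
    exact hall

end Pool.Agent.H14.Halv
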