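import Mathlib
import Pool.Agent.H14.Halv.Defs

/-!
# [H14 TT] Singer-invariant functions antisymmetric under `⊥` are null of strength 3

`K/F` finite fields, `[K:F] = 2k`. `φ` is a function on subspaces, supported on dimension `k`,
invariant under all multiplications `tw u` (`u ∈ Kˣ`) and `φ (W^⊥) = - φ W`. Then
`∑_{W ⊇ T} φ W = 0` for every `T` with `dim T ≤ 2`.

PROOF.
(1) For `u : Kˣ`: `T ≤ tw u W ↔ ∀ t ∈ T, u⁻¹ t ∈ W` (`mem_tw`).
Let `N T W = #{u : Kˣ | T ≤ tw u W}` (as an integer sum of indicators over `u : Kˣ`).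
Reindexing `W ↦ tw u W` (a bijection with inverse `tw u⁻¹`: `tw_mul`, `tw_one`) and invariance,
`|Kˣ| * ∑_{W ⊇ T} φ W = ∑_u ∑_W [T ≤ W] φ W = ∑_u ∑_W [T ≤ tw u W] φ (tw u W)
 = ∑_W φ W * N T W`.
(2) KEY: if `dim W = k` and `dim T ≤ 2` then `N T W = N T (perp W)`.
Then, as `perp` is an involution (`perp_perp`), `∑_W φ W N T W = ∑_W φ (perp W) N T (perp W)
= - ∑_W φ W N T W`, so it is `0`, and `|Kˣ| ≠ 0` gives the claim.
(3) Proof of KEY. `N T W = |S T W| - 1`, where `S T W = {v : K | ∀ t ∈ T, v t ∈ W}` (a submodule;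
`u ↔ v = u⁻¹`; note `0 ∈ S T W`), so it is enough that `finrank (S T W) = finrank (S T (perp W))`.
 * `dim T = 0`: both are `K`.
 * `T = ⟨x⟩`, `x ≠ 0`: `S T W = x⁻¹ W` has the dimension of `W`, i.e. `k`, same for `perp W`
   (`finrank_perp`).
 * `T = ⟨x, y⟩`, `x, y ≠ 0`: `S T W = x⁻¹ W ∩ y⁻¹ W`, and
   `S T (perp W) = {v | v x ∈ W^⊥, v y ∈ W^⊥} = (x W + y W)^⊥` because
   `Tr (v x w) = Tr (v (x w))`. So `dim S T (perp W) = 2k - dim (xW + yW) = 2k - (2k - dim (xW ∩ yW))
   = dim (xW ∩ yW)`, and `xW ∩ yW = xy (y⁻¹ W ∩ x⁻¹ W)`, i.e. `tw (x*y)` maps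
   `x⁻¹ W ∩ y⁻¹ W` onto `xW ∩ yW`; use `finrank_tw`.
   (With units: `x⁻¹ W = tw x⁻¹ W`; `tw u (A ⊓ B) = tw u A ⊓ tw u B` is `rfl`-like from `mem_tw`;
   `perp (A ⊔ B) = perp A ⊓ perp B`; `perp_tw`.)
   So with `a, b : Kˣ`: `finrank (tw a⁻¹ W ⊓ tw b⁻¹ W) = finrank (tw a⁻¹ (perp W) ⊓ tw b⁻¹ (perp W))`.
   Indeed `tw a⁻¹ (perp W) ⊓ tw b⁻¹ (perp W) = perp (tw a W) ⊓ perp (tw b W) = perp (tw a W ⊔ tw b W)`.

`Null`: `Pool/Agent/H24/LSJoin.lean`; `tw`, `mem_tw`, `tw_mul`, `tw_one`, `finrank_tw`: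
`Pool/Agent/H24/LSSinger.lean` (also the instance `unitsFintype : Fintype Kˣ`);
`perp`, `finrank_perp`, `perp_perp`, `perp_tw`: `Pool/Agent/H14/Halv/Defs.lean`.
-/

set_option autoImplicit false
set_option linter.unusedSectionVars false
set_option linter.unusedVariables false
set_option linter.style.haveILetI false

open Module
open scoped Classical
open Pool.Agent.H24.LS

namespace Pool.Agent.H14.Halv

variable {F : Type} [Field F] [Finite F] {K : Type} [Field K] [Algebra F K] [Finite K]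

/-- multipliers of `T` into `W` -/
def SM (T W : Submodule F K) : Submodule F K where
  carrier := {v | ∀ t ∈ T, v * t ∈ W}
  add_mem' := by
    intro a b ha hb t ht
    rw [add_mul]
    exact W.add_mem (ha t ht) (hb t ht)
  zero_mem' := by
    intro t _
    rw [zero_mul]
    exact W.zero_mem
  smul_mem' := by
    intro c x hx t ht
    rw [smul_mul_assoc]
    exact W.smul_mem c (hx t ht)

lemma mem_SM (T W : Submodule F K) (v : K) : v ∈ SM T W ↔ ∀ t ∈ T, v * t ∈ W := Iff.rfl

lemma SM_basis {m : ℕ} (T W : Submodule F K) (b : Basis (Fin m) F T) (v : K) :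
    v ∈ SM T W ↔ ∀ i, v * (b i : K) ∈ W := by
  rw [mem_SM]
  constructor
  · intro h i
    exact h _ (b i).2
  · intro h t ht
    have h1 := b.sum_repr ⟨t, ht⟩
    have h2 : ∑ i, (b.repr ⟨t, ht⟩ i) • (b i : K) = t := by
      have h3 := congrArg T.subtype h1
      rw [map_sum] at h3
      exact h3
    rw [← h2, Finset.mul_sum]
    refine W.sum_mem fun i _ => ?_
    rw [mul_smul_comm]
    exact W.smul_mem _ (h i)

lemma mem_tw_inv (u : Kˣ) (W : Submodule F K) (v : K) : v ∈ tw u⁻¹ W ↔ v * (u : K) ∈ W := by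
  rw [mem_tw, inv_inv, mul_comm]

lemma tw_inf (u : Kˣ) (A B : Submodule F K) : tw u (A ⊓ B) = tw u A ⊓ tw u B := by
  ext x
  rw [mem_tw, Submodule.mem_inf, Submodule.mem_inf, mem_tw, mem_tw]

lemma perp_sup (A B : Submodule F K) : perp (A ⊔ B) = perp A ⊓ perp B := by
  ext x
  rw [Submodule.mem_inf, mem_perp, mem_perp, mem_perp]
  constructor
  · intro h
    exact ⟨fun w hw => h w (Submodule.mem_sup_left hw), fun w hw => h w (Submodule.mem_sup_right hw)⟩
  · rintro ⟨h1, h2⟩ w hw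
    obtain ⟨a, ha, b, hb, rfl⟩ := Submodule.mem_sup.1 hw
    rw [mul_add, map_add, h1 a ha, h2 b hb, add_zero]

/-- the key equality for planes -/
lemma key_two {k : ℕ} (hK : finrank F K = 2 * k) (W : Submodule F K) (hW : finrank F W = k)
    (a b : Kˣ) :
    finrank F (tw a⁻¹ W ⊓ tw b⁻¹ W : Submodule F K) =
      finrank F (tw a⁻¹ (perp W) ⊓ tw b⁻¹ (perp W) : Submodule F K) := by
  have : FiniteDimensional F K := inferInstance
  rw [← perp_tw, ← perp_tw, ← perp_sup]
  have h1 := finrank_perp (tw a W ⊔ tw b W)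
  have h2 := Submodule.finrank_sup_add_finrank_inf_eq (tw a W) (tw b W)
  rw [finrank_tw, finrank_tw, hW] at h2
  have h3 : finrank F (tw (a * b) (tw a⁻¹ W ⊓ tw b⁻¹ W)) =
      finrank F (tw a⁻¹ W ⊓ tw b⁻¹ W : Submodule F K) := finrank_tw _ _
  have h4 : tw (a * b) (tw a⁻¹ W ⊓ tw b⁻¹ W) = tw a W ⊓ tw b W := by
    rw [tw_inf, ← tw_mul, ← tw_mul]
    have e1 : a * b * a⁻¹ = b := by
      rw [mul_comm a b, mul_assoc, mul_inv_cancel, mul_one]
    have e2 : a * b * b⁻¹ = a := by
      rw [mul_assoc, mul_inv_cancel, mul_one]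
    rw [e1, e2, inf_comm]
  rw [h4] at h3
  omega

lemma finrank_SM {k : ℕ} (hK : finrank F K = 2 * k) (T W : Submodule F K)
    (hW : finrank F W = k) (hT : finrank F T < 3) :
    finrank F (SM T W) = finrank F (SM T (perp W)) := by
  have : FiniteDimensional F K := inferInstance
  have hp := finrank_perp W
  rcases (by omega : finrank F T = 0 ∨ finrank F T = 1 ∨ finrank F T = 2) with h | h | h
  · let b := finBasisOfFinrankEq F T h
    have h1 : ∀ W' : Submodule F K, SM T W' = ⊤ := by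
      intro W'
      ext v
      rw [SM_basis T W' b v]
      simp
    rw [h1, h1]
  · let b := finBasisOfFinrankEq F T h
    have hb0 : (b 0 : K) ≠ 0 := fun h0 => b.ne_zero 0 (Subtype.ext h0)
    have h1 : ∀ W' : Submodule F K, SM T W' = tw (Units.mk0 (b 0 : K) hb0)⁻¹ W' := by
      intro W'
      ext v
      rw [SM_basis T W' b v, mem_tw_inv, Fin.forall_fin_one, Units.val_mk0]
    rw [h1, h1, finrank_tw, finrank_tw]
    omega
  · let b := finBasisOfFinrankEq F T h
    have hb0 : (b 0 : K) ≠ 0 := fun h0 => b.ne_zero 0 (Subtype.ext h0)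
    have hb1 : (b 1 : K) ≠ 0 := fun h0 => b.ne_zero 1 (Subtype.ext h0)
    have h1 : ∀ W' : Submodule F K, SM T W' =
        tw (Units.mk0 (b 0 : K) hb0)⁻¹ W' ⊓ tw (Units.mk0 (b 1 : K) hb1)⁻¹ W' := by
      intro W'
      ext v
      rw [SM_basis T W' b v, Submodule.mem_inf, mem_tw_inv, mem_tw_inv, Fin.forall_fin_two,
        Units.val_mk0, Units.val_mk0]
    rw [h1, h1]
    exact key_two hK W hW _ _

/-- the number of units in a submodule depends only on its dimension -/
lemma card_units (S : Submodule F K) :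
    ∑ u : Kˣ, (if (u : K) ∈ S then (1 : ℤ) else 0) = (Nat.card F : ℤ) ^ finrank F S - 1 := by
  have : FiniteDimensional F K := inferInstance
  haveI : Fintype F := Fintype.ofFinite F
  haveI : Fintype S := Fintype.ofFinite S
  rw [Finset.sum_boole, ← Fintype.card_subtype]
  have e : {u : Kˣ // (u : K) ∈ S} ≃ {x : S // x ≠ 0} :=
    { toFun := fun u => ⟨⟨u.1, u.2⟩, fun h => u.1.ne_zero (congrArg Subtype.val h)⟩
      invFun := fun x => ⟨Units.mk0 x.1.1 (fun h => x.2 (Subtype.ext h)), x.1.2⟩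
      left_inv := fun u => Subtype.ext (Units.ext rfl)
      right_inv := fun x => rfl }
  rw [Fintype.card_congr e]
  have h1 : Fintype.card {x : S // x ≠ 0} = Fintype.card S - 1 := by
    have := Fintype.card_subtype_compl (fun x : S => x = 0)
    rw [Fintype.card_subtype_eq] at this
    exact this
  have h2 : Fintype.card S = Nat.card F ^ finrank F S := by
    rw [← Nat.card_eq_fintype_card]
    exact Module.natCard_eq_pow_finrank
  have h3 : 1 ≤ Fintype.card S := Fintype.card_pos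
  rw [h1]
  push_cast [h3]
  rw [h2]
  push_cast
  rfl

/-- `N T W` -/
noncomputable def NT (T W : Submodule F K) : ℤ := ∑ u : Kˣ, if T ≤ tw u W then (1 : ℤ) else 0

lemma NT_eq (T W : Submodule F K) : NT T W = (Nat.card F : ℤ) ^ finrank F (SM T W) - 1 := by
  rw [← card_units]
  unfold NT
  refine Fintype.sum_equiv (Equiv.inv Kˣ) _ _ fun u => ?_
  have : T ≤ tw u W ↔ (((Equiv.inv Kˣ) u : Kˣ) : K) ∈ SM T W := by
    rw [mem_SM, Equiv.inv_apply]
    rfl
  simp only [this]

/-- multiplication by a unit on the set of subspaces -/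
def twEquiv (u : Kˣ) : Submodule F K ≃ Submodule F K where
  toFun := tw u
  invFun := tw u⁻¹
  left_inv := fun W => by rw [← tw_mul, inv_mul_cancel, tw_one]
  right_inv := fun W => by rw [← tw_mul, mul_inv_cancel, tw_one]

theorem null_of_anti {k : ℕ} (hK : finrank F K = 2 * k) (φ : Submodule F K → ℤ)
    (hk : ∀ W, φ W ≠ 0 → finrank F W = k) (hT : ∀ (u : Kˣ) (W : Submodule F K), φ (tw u W) = φ W)
    (hanti : ∀ W, φ (perp W) = - φ W) : Null 3 φ := by
  intro T hT3
  set c : ℤ := ∑ W : Submodule F K, (if T ≤ W then φ W else 0) with hc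
  set A : ℤ := ∑ W : Submodule F K, φ W * NT T W with hA
  have h1 : ∀ u : Kˣ, ∑ W : Submodule F K, (if T ≤ tw u W then φ W else 0) = c := by
    intro u
    rw [hc]
    refine Fintype.sum_equiv (twEquiv u) _ _ fun W => ?_
    show (if T ≤ tw u W then φ W else 0) = if T ≤ tw u W then φ (tw u W) else 0
    rw [hT]
  have h2 : A = (Fintype.card Kˣ : ℤ) * c := by
    have h3 : A = ∑ u : Kˣ, ∑ W : Submodule F K, (if T ≤ tw u W then φ W else 0) := by
      rw [Finset.sum_comm, hA]
      refine Finset.sum_congr rfl fun W _ => ?_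
      unfold NT
      rw [Finset.mul_sum]
      refine Finset.sum_congr rfl fun u _ => ?_
      split_ifs <;> simp
    rw [h3, Finset.sum_congr rfl fun u _ => h1 u, Finset.sum_const, Finset.card_univ,
      nsmul_eq_mul]
  have h4 : A = -A := by
    have h5 : A = ∑ W : Submodule F K, φ (perp W) * NT T (perp W) := by
      rw [hA]
      refine Fintype.sum_equiv (Function.Involutive.toPerm (perp (F := F) (K := K)) perp_perp) _ _
        fun W => ?_
      show φ W * NT T W = φ (perp (perp W)) * NT T (perp (perp W))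
      rw [perp_perp]
    have h6 : -A = ∑ W : Submodule F K, -(φ W * NT T W) := by
      rw [hA, Finset.sum_neg_distrib]
    rw [h6]
    conv_lhs => rw [h5]
    refine Finset.sum_congr rfl fun W _ => ?_
    rw [hanti]
    by_cases hW : φ W = 0
    · rw [hW]
      simp
    · rw [NT_eq, NT_eq, ← finrank_SM hK T W (hk W hW) hT3]
      ring
  have h5 : A = 0 := by linarith
  rw [h5] at h2
  have h6 : (Fintype.card Kˣ : ℤ) ≠ 0 := by
    have : 0 < Fintype.card Kˣ := Fintype.card_pos
    exact_mod_cast this.ne'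
  exact (mul_eq_zero.1 h2.symm).resolve_left h6

end Pool.Agent.H14.Halv
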