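import Mathlib
import Pool.Agent.H14.Halv.LatGreek
import Pool.Agent.H14.Halv.TTrick
import Pool.Agent.H14.Halv.OrbSign
import Pool.Agent.H14.Halv.Rho
import Pool.Agent.H14.Halv.Base

/-!
# Halving the middle layer: `L F 3 k (2 k)` for `k ≥ 3` odd and `|F|` odd
-/

set_option autoImplicit false
set_option linter.unusedSectionVars false
set_option linter.unusedVariables false
set_option linter.style.haveILetI false

open Module
open scoped Classical
open Pool.Agent.H24.LS

namespace Pool.Agent.H14.Halv

variable {F : Type} [Field F] [Finite F] {K : Type} [Field K] [Algebra F K] [Finite K]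

lemma two_ne_zero' (hq : Odd (Nat.card F)) : (2 : F) ≠ 0 := by
  intro h
  have : Fintype F := Fintype.ofFinite F
  have hchar : ringChar F = 2 := by
    have h1 : ringChar F ∣ 2 := (ringChar.spec F 2).1 (by exact_mod_cast h)
    rcases (Nat.dvd_prime Nat.prime_two).1 h1 with h2 | h2
    · exfalso
      have := CharP.ringChar_ne_one (R := F)
      exact this h2
    · exact h2
  have := FiniteField.even_card_of_char_two hchar
  rw [Nat.card_eq_fintype_card] at hq
  exact (Nat.not_even_iff_odd.2 hq) (Nat.even_iff.2 this)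

lemma mul_mem_multField (W : Submodule F K) (x : K) :
    x ∈ multField W ↔ ∀ w ∈ W, x * w ∈ W := Iff.rfl

lemma tw_eq_iff_mem (W : Submodule F K) (u : Kˣ) : tw u W = W ↔ (u : K) ∈ multField W := by
  constructor
  · intro h w hw
    have : (u : K) * w ∈ tw u W := (mem_tw_mul u W w).2 hw
    rwa [h] at this
  · intro h
    symm
    apply Submodule.eq_of_le_of_finrank_eq
    · intro x hx
      rw [mem_tw]
      have h2 : ((u⁻¹ : Kˣ) : K) ∈ multField W := by
        rw [Units.val_inv_eq_inv_val]
        exact (multField W).inv_mem h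
      exact h2 x hx
    · rw [finrank_tw]

lemma finrank_multField_dvd (W : Submodule F K) : finrank F (multField W) ∣ finrank F W := by
  let L := multField W
  let W' : Submodule L K :=
    { carrier := W
      add_mem' := fun ha hb => W.add_mem ha hb
      zero_mem' := W.zero_mem
      smul_mem' := fun c x hx => c.2 x hx }
  have h2 : finrank F L * finrank L W' = finrank F W := by
    have := Module.finrank_mul_finrank F L W'
    rw [this]
    have e : W' ≃ₗ[F] W :=
      { toFun := fun x => ⟨x.1, x.2⟩
        invFun := fun x => ⟨x.1, x.2⟩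
        map_add' := fun _ _ => rfl
        map_smul' := fun _ _ => rfl
        left_inv := fun _ => rfl
        right_inv := fun _ => rfl }
    exact e.finrank_eq
  exact ⟨_, h2.symm⟩

lemma Null_add {V : Type} [AddCommGroup V] [Module F V] [Finite V] {s : ℕ}
    {f g : Submodule F V → ℤ} (hf : Null s f) (hg : Null s g) : Null s (fun W => f W + g W) := by
  intro T hT
  have h1 := hf T hT
  have h2 := hg T hT
  have e : ∀ W : Submodule F V, (if T ≤ W then f W + g W else 0)
      = (if T ≤ W then f W else 0) + (if T ≤ W then g W else 0) := by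
    intro W; by_cases h : T ≤ W <;> simp [h]
  rw [Finset.sum_congr rfl (fun W _ => e W), Finset.sum_add_distrib, h1, h2, add_zero]

lemma Null_sum {V : Type} [AddCommGroup V] [Module F V] [Finite V] {s : ℕ} {α : Type}
    (I : Finset α) (f : α → Submodule F V → ℤ) (c : α → ℤ) (hf : ∀ i ∈ I, Null s (f i)) :
    Null s (fun W => ∑ i ∈ I, c i * f i W) := by
  intro T hT
  have e : ∀ W : Submodule F V, (if T ≤ W then (∑ i ∈ I, c i * f i W) else 0)
      = ∑ i ∈ I, c i * (if T ≤ W then f i W else 0) := by
    intro W; by_cases h : T ≤ W <;> simp [h]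
  rw [Finset.sum_congr rfl (fun W _ => e W), Finset.sum_comm]
  apply Finset.sum_eq_zero
  intro i hi
  rw [← Finset.mul_sum, hf i hi T hT, mul_zero]

lemma Null_zero {V : Type} [AddCommGroup V] [Module F V] [Finite V] {s : ℕ} :
    Null s (fun _ : Submodule F V => 0) := by
  intro T hT
  simp

/-- sign of a totally singular space relative to the base -/
noncomputable def cs (k : ℕ) (X : Kˣ → Submodule F K) (μ : Kˣ) (W : Submodule F K) : ℤ :=
  if (finrank F W = k ∧ TS F (μ : K) W) then (-1 : ℤ) ^ finrank F (W ⊓ X μ : Submodule F K) else 0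

lemma cs_null {k : ℕ} (hq : Odd (Nat.card F)) (hK : finrank F K = 2 * k)
    (X : Kˣ → Submodule F K)
    (hX : ∀ (μ : Kˣ) (W : Submodule F K), finrank F W = k → TS F (μ : K) W →
        finrank F (X μ) = k ∧ TS F (μ : K) (X μ)) (μ : Kˣ) : Null k (cs k X μ) := by
  by_cases h : ∃ W : Submodule F K, finrank F W = k ∧ TS F (μ : K) W
  · obtain ⟨W, hW, hW'⟩ := h
    obtain ⟨h1, h2⟩ := hX μ W hW hW'
    have := latgreek (Bf (F := F) (μ : K)) (Bf_symm _) (Bf_nondeg μ.ne_zero) (two_ne_zero' hq) k hK
      (X μ) h1 h2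
    exact this
  · have : cs k X μ = fun _ => 0 := by
      funext W
      unfold cs
      rw [if_neg]
      intro h'
      exact h ⟨W, h'⟩
    rw [this]
    exact Null_zero

/-- The middle layer: for `k ≥ 3` odd, the `k`-subspaces of `K = F_{q^{2k}}` are halvable with strength
`3`. -/
theorem middle {k : ℕ} (hq : Odd (Nat.card F)) (hk : Odd k) (hk3 : 3 ≤ k)
    (hK : finrank F K = 2 * k) : Halv 3 (Gr F k K) := by
  obtain ⟨φ, f1, f2, f3, f4, f5⟩ := exists_orbit_sign (F := F) (K := K) hK
  obtain ⟨ρ, hρ⟩ := exists_rho (F := F) (K := K) hq hk hK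
  obtain ⟨X, x1, x2⟩ := exists_base (F := F) (K := K) hq hK
  refine ⟨fun W => φ W + ∑ μ : Kˣ, ρ μ * cs k X μ W, ?_, ?_, ?_⟩
  · intro W hW
    have hWk : finrank F W = k := hW
    show φ W + ∑ μ : Kˣ, ρ μ * cs k X μ W = 1 ∨ φ W + ∑ μ : Kˣ, ρ μ * cs k X μ W = -1
    by_cases h : ∃ u : Kˣ, tw u W = perp W
    · rw [f4 W hWk h, zero_add]
      obtain ⟨u, hu⟩ := h
      have hdvd : finrank F (multField W) ∣ k := by
        rw [← hWk]; exact finrank_multField_dvd W
      -- the multipliers `μ` with `W` t.s. for `μ`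
      have hTS : ∀ v : Kˣ, TS F (v : K) W ↔ (v : K) * ((u⁻¹ : Kˣ) : K) ∈ multField W := by
        intro v
        rw [TS_iff hK v W hWk, ← hu]
        have e1 : ((v : K) * ((u⁻¹ : Kˣ) : K)) = ((u⁻¹ * v : Kˣ) : K) := by
          rw [Units.val_mul, mul_comm]
        rw [e1, ← tw_eq_iff_mem]
        constructor
        · intro h
          rw [tw_mul, h, ← tw_mul, inv_mul_cancel, tw_one]
        · intro h
          have : v = u * (u⁻¹ * v) := by rw [← mul_assoc, mul_inv_cancel, one_mul]
          rw [this, tw_mul, h]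
      have hval : ∀ v : Kˣ, ρ v * cs k X v W
          = (-1 : ℤ) ^ finrank F (W ⊓ X u : Submodule F K) *
            (if ((v : K) * ((u⁻¹ : Kˣ) : K) ∈ multField W) then ρ v else 0) := by
        intro v
        unfold cs
        by_cases hv : (v : K) * ((u⁻¹ : Kˣ) : K) ∈ multField W
        · rw [if_pos ⟨hWk, (hTS v).2 hv⟩, if_pos hv, x2 (multField W) hdvd u v hv, mul_comm]
        · rw [if_neg (fun h => hv ((hTS v).1 h.2)), if_neg hv, mul_zero, mul_zero]
      rw [Finset.sum_congr rfl (fun v _ => hval v), ← Finset.mul_sum]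
      rcases hρ (multField W) hdvd u with h1 | h1 <;> rw [h1] <;>
        rcases neg_one_pow_eq_or ℤ (finrank F (W ⊓ X u : Submodule F K)) with h2 | h2 <;>
        rw [h2] <;> norm_num
    · have h0 : ∑ μ : Kˣ, ρ μ * cs k X μ W = 0 := by
        apply Finset.sum_eq_zero
        intro μ _
        have : cs k X μ W = 0 := by
          unfold cs
          rw [if_neg]
          rintro ⟨_, h2⟩
          exact h ⟨μ, (TS_iff hK μ W hWk).1 h2⟩
        rw [this, mul_zero]
      rw [h0, add_zero]
      exact f5 W hWk h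
  · intro W hW
    have hWk : ¬ finrank F W = k := hW
    show φ W + ∑ μ : Kˣ, ρ μ * cs k X μ W = 0
    have h1 : φ W = 0 := by
      by_contra h
      exact hWk (f1 W h)
    have h0 : ∑ μ : Kˣ, ρ μ * cs k X μ W = 0 := by
      apply Finset.sum_eq_zero
      intro μ _
      have : cs k X μ W = 0 := by
        unfold cs
        rw [if_neg]
        rintro ⟨h2, _⟩
        exact hWk h2
      rw [this, mul_zero]
    rw [h1, h0, add_zero]
  · apply Null_add
    · exact null_of_anti hK φ f1 f2 f3
    · have := Null_sum (s := k) Finset.univ (fun μ : Kˣ => cs k X μ) ρ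
        (fun μ _ => cs_null hq hK X x1 μ)
      intro T hT
      exact this T (by omega)

/-- The middle layer in coordinates. -/
theorem L_middle (hq : Odd (Nat.card F)) (k : ℕ) (hk : Odd k) (hk3 : 3 ≤ k) : L F 3 k (2 * k) := by
  obtain ⟨p, hp⟩ := CharP.exists F
  haveI : Fact p.Prime := ⟨(CharP.char_is_prime F p)⟩
  haveI : NeZero (2 * k) := ⟨by omega⟩
  have hfr : finrank F (FiniteField.Extension F p (2 * k)) = 2 * k :=
    FiniteField.finrank_extension F p (2 * k)
  exact L.ofV hfr (middle hq hk hk3 hfr)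

end Pool.Agent.H14.Halv
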