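import Mathlib
import Pool.Agent.H14.Halv.Defs
import Pool.Agent.H14.Halv.Rho

/-!
# [H14 RHO2] Signs on `Kˣ` with prescribed coset sums

`K/F` finite fields, `|F| = q` odd. There is `ρ : Kˣ → ℤ` such that for every intermediate field `S`,
the sum of `ρ` over every coset `u Sˣ` is `± 1` if `[S:F]` is odd, and `0` if `[S:F]` is even.

PROOF. `A = Kˣ` is cyclic, `C = Fˣ`, `N = |A/C| = 2^a N'` with `N'` odd, `γ` a generator of `A`. Every
`v : Kˣ` is `γ^i c` with a unique `0 ≤ i < N` and a unique `c ∈ C` (`C` is generated by `γ^N`). Put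
`ρ (γ^i) = (-1)^(⌊(i mod 2^a)/2^(a-1)⌋ + (i mod N'))` for `0 ≤ i < N` (the first term is absent if
`a = 0`), and `ρ v = 0` for the other `v` (so `ρ` is supported on one representative of each
coset of `C`). Write `σ (i)` for this sign as a function of `i ∈ ZMod N`; it satisfies
`σ (i + N/2) = - σ i` if `N` is even.
Let `S` have degree `d`, `H = Sˣ ≥ C`, `[H:C] = 1 + q + ... + q^{d-1}` has the parity of `d` (`q` odd).
The sum over the coset `u H` is the sum of `σ` over a coset of the subgroup `H/C` of `A/C = ZMod N`.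
* `[H:C]` even: `H/C` contains the unique involution `N/2`, so the sum is its own negative, hence `0`.
* `[H:C] = m` odd: `m ∣ N'`, `H/C` is generated by `N/m = 2^a (N'/m)`, on the coset the term
`i mod 2^a` is constant and `i mod N'` runs over `{r + (N'/m) b | b < m}`, `0 ≤ r < N'/m`, so the sum is
`± ∑_{b < m} (-1)^{(N'/m) b} = ± ∑_{b<m} (-1)^b = ± 1`.
(Any proof is fine.)
-/

set_option autoImplicit false
set_option linter.unusedSectionVars false
set_option linter.unusedVariables false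
set_option linter.style.haveILetI false

open Module
open scoped Classical
open Pool.Agent.H24.LS

namespace Pool.Agent.H14.Halv

variable {F : Type} [Field F] [Finite F] {K : Type} [Field K] [Algebra F K] [Finite K]

/-- the sign function -/
def sg (a N' i : ℕ) : ℤ := (-1) ^ ((i % 2 ^ a) / 2 ^ (a - 1) + i % N')

lemma sg_eq (a N' i : ℕ) : sg a N' i = (-1) ^ ((i % 2 ^ a) / 2 ^ (a - 1)) * (-1) ^ (i % N') := by
  rw [sg, pow_add]

lemma sg_half (b N' i : ℕ) (hN : Odd N') :
    sg (b + 1) N' (i + 2 ^ b * N') = - sg (b + 1) N' i := by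
  rw [sg_eq, sg_eq]
  have h1 : (i + 2 ^ b * N') % N' = i % N' := Nat.add_mul_mod_self_right i (2 ^ b) N'
  rw [h1]
  have h2 : b + 1 - 1 = b := by omega
  rw [h2]
  obtain ⟨k, hk⟩ := hN
  have hb : 0 < 2 ^ b := by positivity
  have h3 : (i + 2 ^ b * N') % 2 ^ (b + 1) = (i + 2 ^ b) % 2 ^ (b + 1) := by
    have : i + 2 ^ b * N' = (i + 2 ^ b) + 2 ^ (b + 1) * k := by
      rw [hk, pow_succ]; ring
    rw [this, Nat.add_mul_mod_self_left]
  rw [h3]
  have h4 : ((i + 2 ^ b) % 2 ^ (b + 1)) / 2 ^ b = ((i + 2 ^ b) / 2 ^ b) % 2 := by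
    rw [pow_succ, Nat.mod_mul_right_div_self]
  have h5 : (i % 2 ^ (b + 1)) / 2 ^ b = (i / 2 ^ b) % 2 := by
    rw [pow_succ, Nat.mod_mul_right_div_self]
  rw [h4, h5, Nat.add_div_right _ hb]
  have h6 : ((-1 : ℤ)) ^ ((i / 2 ^ b + 1) % 2) = - (-1) ^ ((i / 2 ^ b) % 2) := by
    rcases Nat.mod_two_eq_zero_or_one (i / 2 ^ b) with h | h
    · have h' : (i / 2 ^ b + 1) % 2 = 1 := by omega
      rw [h, h']; norm_num
    · have h' : (i / 2 ^ b + 1) % 2 = 0 := by omega
      rw [h, h']; norm_num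
  have h7 : (i / 2 ^ b).succ % 2 = (i / 2 ^ b + 1) % 2 := rfl
  rw [h7, h6]
  ring

/-- a sum over `range c` of a function of `(x + t j) % c` with `t` coprime to `c` -/
lemma sum_affine (g : ℕ → ℤ) (c x t : ℕ) (hc : 0 < c) (ht : Nat.Coprime t c) :
    ∑ j ∈ Finset.range c, g ((x + t * j) % c) = ∑ b ∈ Finset.range c, g b := by
  have hinj : Set.InjOn (fun j => (x + t * j) % c) (Finset.range c : Set ℕ) := by
    intro j hj j' hj' h
    have hj1 : j < c := by simpa using hj
    have hj2 : j' < c := by simpa using hj'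
    have h1 : (x + t * j) ≡ (x + t * j') [MOD c] := h
    have h2 : t * j ≡ t * j' [MOD c] := Nat.ModEq.add_left_cancel' x h1
    have h3 : j ≡ j' [MOD c] := Nat.ModEq.cancel_left_of_coprime (by
      rw [Nat.gcd_comm]; exact ht) h2
    unfold Nat.ModEq at h3
    rwa [Nat.mod_eq_of_lt hj1, Nat.mod_eq_of_lt hj2] at h3
  have himg : (Finset.range c).image (fun j => (x + t * j) % c) = Finset.range c := by
    apply Finset.eq_of_subset_of_card_le
    · intro y hy
      obtain ⟨j, -, rfl⟩ := Finset.mem_image.1 hy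
      exact Finset.mem_range.2 (Nat.mod_lt _ hc)
    · rw [Finset.card_image_of_injOn hinj]
  calc ∑ j ∈ Finset.range c, g ((x + t * j) % c)
      = ∑ b ∈ (Finset.range c).image (fun j => (x + t * j) % c), g b :=
        (Finset.sum_image (f := g) hinj).symm
    _ = ∑ b ∈ Finset.range c, g b := by rw [himg]

/-- odd case -/
lemma sum_sg_odd (a e c r : ℕ) (he : Odd e) (hc : Odd c) :
    (∑ j ∈ Finset.range c, sg a (c * e) (r + 2 ^ a * e * j) = 1) ∨
    (∑ j ∈ Finset.range c, sg a (c * e) (r + 2 ^ a * e * j) = -1) := by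
  have he0 : 0 < e := he.pos
  have hc0 : 0 < c := hc.pos
  have h1 : ∀ j ∈ Finset.range c, sg a (c * e) (r + 2 ^ a * e * j) =
      ((-1) ^ ((r % 2 ^ a) / 2 ^ (a - 1)) * (-1) ^ (r % e)) *
        (-1) ^ ((r / e + 2 ^ a * j) % c) := by
    intro j _
    rw [sg_eq]
    have h2 : (r + 2 ^ a * e * j) % 2 ^ a = r % 2 ^ a := by
      rw [mul_assoc, Nat.add_mul_mod_self_left]
    have h3 : (r + 2 ^ a * e * j) % (c * e) = r % e + e * ((r / e + 2 ^ a * j) % c) := by
      rw [mul_comm c e, Nat.mod_mul]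
      have h4 : (r + 2 ^ a * e * j) = r + e * (2 ^ a * j) := by ring
      rw [h4, Nat.add_mul_mod_self_left, Nat.add_mul_div_left _ _ he0]
    rw [h2, h3, pow_add, pow_mul, he.neg_one_pow]
    ring
  rw [Finset.sum_congr rfl h1, ← Finset.mul_sum,
    sum_affine (fun b => (-1 : ℤ) ^ b) c (r / e) (2 ^ a) hc0
      (Nat.Coprime.pow_left a (Nat.coprime_two_left.2 hc)),
    neg_one_geom_sum, if_neg (Nat.not_even_iff_odd.2 hc), mul_one, ← pow_add]
  exact neg_one_pow_eq_or ℤ _

/-- even case -/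
lemma sum_sg_even (b N' w c' r : ℕ) (hN : Odd N') (h : w * c' = 2 ^ b * N') :
    ∑ j ∈ Finset.range (c' + c'), sg (b + 1) N' (r + w * j) = 0 := by
  rw [Finset.sum_range_add]
  have h1 : ∀ j ∈ Finset.range c', sg (b + 1) N' (r + w * (c' + j)) =
      - sg (b + 1) N' (r + w * j) := by
    intro j _
    rw [← sg_half b N' (r + w * j) hN, ← h]
    congr 1
    ring
  rw [Finset.sum_congr rfl h1, Finset.sum_neg_distrib, add_neg_cancel]

theorem exists_rho2 (F K : Type) [Field F] [Finite F] [Field K] [Algebra F K] [Finite K]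
    (hq : Odd (Nat.card F)) :
    ∃ ρ : Kˣ → ℤ, ∀ S : IntermediateField F K, ∀ u : Kˣ,
      (Odd (finrank F S) →
        (∑ v : Kˣ, if ((v : K) * ((u⁻¹ : Kˣ) : K) ∈ S) then ρ v else 0) = 1 ∨
        (∑ v : Kˣ, if ((v : K) * ((u⁻¹ : Kˣ) : K) ∈ S) then ρ v else 0) = -1) ∧
      (Even (finrank F S) →
        (∑ v : Kˣ, if ((v : K) * ((u⁻¹ : Kˣ) : K) ∈ S) then ρ v else 0) = 0) := by
  set q := Nat.card F with hqdef
  have hq2 : 2 ≤ q := Finite.one_lt_card
  have hq1 : 0 < q - 1 := by omega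
  obtain ⟨γ, hγ⟩ := IsCyclic.exists_generator (α := Kˣ)
  have hn : orderOf γ = Nat.card Kˣ := orderOf_eq_card_of_forall_mem_zpowers hγ
  set D := finrank F K with hD
  have hcard : Nat.card Kˣ = q ^ D - 1 := by
    rw [Nat.card_units, Module.natCard_eq_pow_finrank (K := F)]
  set N := ∑ j ∈ Finset.range D, q ^ j with hNdef
  have hNq : N * (q - 1) = q ^ D - 1 := geom_sum_mul_of_one_le (by omega) D
  have hD0 : 0 < D := Module.finrank_pos
  have hN0 : 0 < N := by
    rcases Nat.eq_zero_or_pos N with h | h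
    · rw [h, zero_mul] at hNq
      have : 1 < q ^ D := Nat.one_lt_pow hD0.ne' (by omega)
      omega
    · exact h
  have hNle : N ≤ Nat.card Kˣ := by
    rw [hcard, ← hNq]
    exact Nat.le_mul_of_pos_right N hq1
  have hn0 : 0 < Nat.card Kˣ := lt_of_lt_of_le hN0 hNle
  -- the 2-part
  obtain ⟨a, N', hN'o, hNN'⟩ := Nat.exists_eq_two_pow_mul_odd hN0.ne'
  -- discrete logarithm
  have hlog : ∀ v : Kˣ, ∃ i < Nat.card Kˣ, γ ^ i = v := by
    intro v
    have h1 : v ∈ Submonoid.powers γ := mem_powers_iff_mem_zpowers.2 (hγ v)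
    obtain ⟨i, hi⟩ := h1
    have hi' : γ ^ i = v := hi
    refine ⟨i % Nat.card Kˣ, Nat.mod_lt _ hn0, ?_⟩
    rw [← hi', ← hn, pow_mod_orderOf]
  choose lg hlg1 hlg2 using hlog
  have hlgpow : ∀ i < Nat.card Kˣ, lg (γ ^ i) = i := by
    intro i hi
    have h1 := hlg2 (γ ^ i)
    rw [pow_eq_pow_iff_modEq, hn] at h1
    have h2 := hlg1 (γ ^ i)
    unfold Nat.ModEq at h1
    rwa [Nat.mod_eq_of_lt h2, Nat.mod_eq_of_lt hi] at h1
  refine ⟨fun v => if lg v < N then sg a N' (lg v) else 0, ?_⟩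
  intro S u
  set d := finrank F S with hd
  have hd0 : 0 < d := Module.finrank_pos
  have hdD : d ∣ D := ⟨finrank S K, (Module.finrank_mul_finrank F S K).symm⟩
  have hqd : 1 < q ^ d := Nat.one_lt_pow hd0.ne' (by omega)
  set m := q ^ d - 1 with hm
  have hm0 : 0 < m := by omega
  set c := ∑ j ∈ Finset.range d, q ^ j with hc
  have hcm : c * (q - 1) = m := geom_sum_mul_of_one_le (by omega) d
  obtain ⟨f, hf⟩ := hdD
  set w := ∑ j ∈ Finset.range f, (q ^ d) ^ j with hw
  have hwm : w * m = q ^ D - 1 := by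
    rw [hf, pow_mul]
    exact geom_sum_mul_of_one_le (by omega) f
  have hNwc : N = w * c := by
    apply Nat.eq_of_mul_eq_mul_right hq1
    rw [hNq, mul_assoc, hcm, hwm]
  have hw0 : 0 < w := by
    rcases Nat.eq_zero_or_pos w with h | h
    · rw [h, zero_mul] at hNwc; omega
    · exact h
  have hc0 : 0 < c := by
    rcases Nat.eq_zero_or_pos c with h | h
    · rw [h, mul_zero] at hNwc; omega
    · exact h
  have hmem : ∀ i : ℕ, (((γ ^ i : Kˣ) : K) * ((u⁻¹ : Kˣ) : K) ∈ S) ↔
      i % w = lg u % w := by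
    intro i
    rw [← Units.val_mul, mem_iff_pow S m hm0 (by rw [hm]), mul_pow, inv_pow, mul_inv_eq_one]
    conv_lhs => rw [← hlg2 u]
    rw [← pow_mul, ← pow_mul, pow_eq_pow_iff_modEq, hn, hcard, ← hwm,
      Nat.ModEq.mul_right_cancel_iff' hm0.ne']
    exact Iff.rfl
  have hsum : (∑ v : Kˣ, if ((v : K) * ((u⁻¹ : Kˣ) : K) ∈ S) then
      (if lg v < N then sg a N' (lg v) else 0) else 0) =
      ∑ i ∈ Finset.range (Nat.card Kˣ), (if (((γ ^ i : Kˣ) : K) * ((u⁻¹ : Kˣ) : K) ∈ S) then
      (if i < N then sg a N' i else 0) else 0) := by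
    symm
    apply Finset.sum_nbij' (fun i => γ ^ i) (fun v => lg v)
    · intro i _
      exact Finset.mem_univ _
    · intro v _
      exact Finset.mem_range.2 (hlg1 v)
    · intro i hi
      exact hlgpow i (Finset.mem_range.1 hi)
    · intro v _
      exact hlg2 v
    · intro i hi
      rw [hlgpow i (Finset.mem_range.1 hi)]
  have hsum2 : ∑ i ∈ Finset.range (Nat.card Kˣ), (if (((γ ^ i : Kˣ) : K) * ((u⁻¹ : Kˣ) : K) ∈ S) then
      (if i < N then sg a N' i else 0) else 0) =
      ∑ i ∈ Finset.range (w * c), (if i % w = lg u % w then sg a N' i else 0) := by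
    rw [← hNwc]
    symm
    have h2 : Finset.range N ⊆ Finset.range (Nat.card Kˣ) := Finset.range_mono hNle
    rw [← Finset.sum_subset h2 (f := fun i => (if (((γ ^ i : Kˣ) : K) * ((u⁻¹ : Kˣ) : K) ∈ S) then
      (if i < N then sg a N' i else 0) else 0))]
    · apply Finset.sum_congr rfl
      intro i hi
      rw [if_pos (Finset.mem_range.1 hi)]
      simp only [hmem]
    · intro i _ hi
      rw [if_neg (fun h => hi (Finset.mem_range.2 h)), ite_self]
  have hsum3 := sum_mod_range (fun i => sg a N' i) w (lg u % w) (Nat.mod_lt _ hw0) c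
  have hall := hsum.trans (hsum2.trans hsum3)
  -- parity of `c`
  constructor
  · intro hodd
    have hco : Odd c := odd_geom _ _ hodd
    -- `c ∣ N'`
    have hcN' : c ∣ N' := by
      have h1 : c ∣ 2 ^ a * N' := ⟨w, by rw [← hNN', hNwc, mul_comm]⟩
      exact Nat.Coprime.dvd_of_dvd_mul_left
        (Nat.Coprime.pow_right a (Nat.coprime_two_right.2 hco)) h1
    obtain ⟨e, he⟩ := hcN'
    have heo : Odd e := by
      rw [he] at hN'o
      exact (Nat.odd_mul.1 hN'o).2
    have hwe : w = 2 ^ a * e := by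
      apply Nat.eq_of_mul_eq_mul_right hc0
      rw [← hNwc, hNN', he]
      ring
    have hfin := sum_sg_odd a e c (lg u % w) heo hco
    rw [← he, ← hwe] at hfin
    rcases hfin with h | h
    · left
      exact hall.trans h
    · right
      exact hall.trans h
  · intro heven
    have hce : Even c := by
      rw [hc]
      have : ∀ k : ℕ, Even (∑ j ∈ Finset.range (k + k), q ^ j) := by
        intro k
        induction k with
        | zero => simp
        | succ k ih =>
          have h1 : k + 1 + (k + 1) = (k + k) + 1 + 1 := by ring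
          rw [h1, Finset.sum_range_succ, Finset.sum_range_succ, add_assoc]
          exact ih.add ((hq.pow).add_odd (hq.pow))
      obtain ⟨k, hk⟩ := heven
      rw [hk]
      exact this k
    obtain ⟨c', hc'⟩ := hce
    have ha : a ≠ 0 := by
      intro h0
      rw [h0, pow_zero, one_mul] at hNN'
      rw [← hNN', hNwc] at hN'o
      have h1 := (Nat.odd_mul.1 hN'o).2
      exact (Nat.not_even_iff_odd.2 h1) ⟨c', hc'⟩
    obtain ⟨b, rfl⟩ := Nat.exists_eq_succ_of_ne_zero ha
    have hwc' : w * c' = 2 ^ b * N' := by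
      have h1 : w * (c' + c') = 2 ^ (b + 1) * N' := by rw [← hc', ← hNwc, hNN']
      have h2 : 2 * (w * c') = 2 * (2 ^ b * N') := by
        have h3 : w * (c' + c') = 2 * (w * c') := by ring
        have h4 : 2 ^ (b + 1) * N' = 2 * (2 ^ b * N') := by ring
        rw [← h3, ← h4, h1]
      omega
    have hfin := sum_sg_even b N' w c' (lg u % w) hN'o hwc'
    rw [← hc'] at hfin
    exact hall.trans hfin

end Pool.Agent.H14.Halv
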