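import Mathlib
import Pool.Agent.H14.Halv.Rho

/-!
# Tower lemmas: quadratic subextension, restriction of scalars
-/

set_option autoImplicit false
set_option linter.unusedSectionVars false
set_option linter.unusedVariables false
set_option linter.style.haveILetI false

open Module
open scoped Classical
open Pool.Agent.H24.LS

namespace Pool.Agent.H14.Halv

variable {F : Type} [Field F] [Finite F] {K : Type} [Field K] [Algebra F K] [Finite K]

/-- the quadratic subextension -/
lemma exists_quadratic {m : ℕ} (hK : finrank F K = 2 * m) :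
    ∃ K₀ : IntermediateField F K, finrank F K₀ = 2 ∧ finrank K₀ K = m ∧
      ∀ S : IntermediateField F K, Even (finrank F S) → K₀ ≤ S := by
  have : Fintype F := Fintype.ofFinite F
  have : FiniteDimensional F K := inferInstance
  have hpos : 0 < finrank F K := finrank_pos
  have hm : 0 < m := by omega
  set σ : K ≃ₐ[F] K := (FiniteField.frobeniusAlgEquivOfAlgebraic F K) ^ 2 with hσ
  have hord : orderOf σ = m := by
    rw [hσ, orderOf_pow_of_dvd two_ne_zero, FiniteField.orderOf_frobeniusAlgEquivOfAlgebraic, hK,
      Nat.mul_div_cancel_left _ (by norm_num)]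
    rw [FiniteField.orderOf_frobeniusAlgEquivOfAlgebraic, hK]
    exact Dvd.intro m rfl
  let K₀ := IntermediateField.fixedField (Subgroup.zpowers σ)
  have h2 : finrank K₀ K = m := by
    rw [IntermediateField.finrank_fixedField_eq_card, Nat.card_zpowers, hord]
  have h3 : finrank F K₀ * finrank K₀ K = finrank F K := finrank_mul_finrank _ _ _
  have h4 : finrank F K₀ = 2 := by
    rw [h2, hK] at h3
    exact Nat.eq_of_mul_eq_mul_right hm h3
  refine ⟨K₀, h4, h2, ?_⟩
  intro S hS x hx
  by_cases hx0 : x = 0
  · rw [hx0]; exact S.zero_mem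
  have hq2 : 2 ≤ Nat.card F := Finite.one_lt_card
  obtain ⟨e, he⟩ := hS
  have hSpos : 0 < finrank F S := finrank_pos
  have h5 := (mem_iff_pow K₀ (Nat.card F ^ 2 - 1)
    (by have : 2 ^ 2 ≤ Nat.card F ^ 2 := Nat.pow_le_pow_left hq2 2
        omega) (by rw [h4]) (Units.mk0 x hx0)).1 hx
  have hd : finrank F S = 2 * e := by omega
  have h6 : 1 < Nat.card F ^ finrank F S := Nat.one_lt_pow hSpos.ne' (by omega)
  refine (mem_iff_pow S (Nat.card F ^ finrank F S - 1) (by omega) rfl (Units.mk0 x hx0)).2 ?_
  have h7 : (∑ j ∈ Finset.range e, (Nat.card F ^ 2) ^ j) * (Nat.card F ^ 2 - 1)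
      = Nat.card F ^ finrank F S - 1 := by
    rw [hd, pow_mul]
    exact geom_sum_mul_of_one_le (Nat.one_le_pow _ _ (by omega)) e
  rw [← h7, mul_comm, pow_mul, h5, one_pow]

variable (K₀ : IntermediateField F K)

/-- restriction of scalars -/
def res (W : Submodule K₀ K) : Submodule F K := W.restrictScalars F

lemma mem_res (W : Submodule K₀ K) (x : K) : x ∈ res K₀ W ↔ x ∈ W := Iff.rfl

lemma res_injective : Function.Injective (res K₀ : Submodule K₀ K → Submodule F K) :=
  Submodule.restrictScalars_injective F K₀ K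

lemma finrank_res (W : Submodule K₀ K) :
    finrank F (res K₀ W) = finrank F K₀ * finrank K₀ W := by
  rw [Module.finrank_mul_finrank F K₀ W]
  rfl

lemma res_tw (u : Kˣ) (W : Submodule K₀ K) : res K₀ (tw u W) = tw u (res K₀ W) := rfl

lemma res_perp (W : Submodule K₀ K) : res K₀ (perp W) = perp (res K₀ W) := by
  have : FiniteDimensional F K := inferInstance
  ext x
  rw [mem_res, mem_perp, mem_perp]
  constructor
  · intro h w hw
    rw [← Algebra.trace_trace (S := K₀), h w hw, map_zero]
  · intro h w hw
    apply trace_nondeg (F := F) (K := K₀)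
    intro y
    have hyw : y • w ∈ W := W.smul_mem y hw
    have h1 := h _ hyw
    rw [← Algebra.trace_trace (S := K₀)] at h1
    have e : x * (y • w) = y • (x * w) := by
      rw [mul_smul_comm]
    rw [e, map_smul, smul_eq_mul] at h1
    rw [mul_comm]
    exact h1

/-- `W` is stable under `K₀` iff it is a restriction of scalars. -/
lemma exists_res (W : Submodule F K) (h : K₀ ≤ multField W) : ∃ W' : Submodule K₀ K, res K₀ W' = W :=
  ⟨{ carrier := W
     add_mem' := fun ha hb => W.add_mem ha hb
     zero_mem' := W.zero_mem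
     smul_mem' := fun c x hx => h c.2 x hx }, rfl⟩

lemma le_multField_res (W : Submodule K₀ K) : K₀ ≤ multField (res K₀ W) := by
  intro x hx w hw
  exact W.smul_mem (⟨x, hx⟩ : K₀) hw

/-- transfer of functions -/
noncomputable def trf (f : Submodule K₀ K → ℤ) (W : Submodule F K) : ℤ :=
  ∑ W' : Submodule K₀ K, if res K₀ W' = W then f W' else 0

lemma trf_res (f : Submodule K₀ K → ℤ) (W : Submodule K₀ K) : trf K₀ f (res K₀ W) = f W := by
  unfold trf
  rw [Finset.sum_eq_single W]
  · rw [if_pos rfl]
  · intro W' _ hne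
    rw [if_neg]
    intro h
    exact hne (res_injective K₀ h)
  · intro h
    exact absurd (Finset.mem_univ _) h

lemma trf_eq_zero (f : Submodule K₀ K → ℤ) (W : Submodule F K)
    (h : ∀ W' : Submodule K₀ K, res K₀ W' = W → f W' = 0) : trf K₀ f W = 0 := by
  unfold trf
  apply Finset.sum_eq_zero
  intro W' _
  by_cases hW : res K₀ W' = W
  · rw [if_pos hW, h W' hW]
  · rw [if_neg hW]

lemma trf_null {s : ℕ} (f : Submodule K₀ K → ℤ) (hf : Null s f) : Null s (trf K₀ f) := by
  intro T hT
  -- the `K₀`-span of `T`
  have hspan : finrank K₀ (Submodule.span K₀ (T : Set K)) ≤ finrank F T := by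
    obtain ⟨b⟩ : Nonempty (Basis (Fin (finrank F T)) F T) := ⟨Module.finBasis F T⟩
    have h1 : Submodule.span K₀ (T : Set K) ≤
        Submodule.span K₀ (Set.range (fun i => ((b i : T) : K))) := by
      rw [Submodule.span_le]
      intro x hx
      have h2 : (⟨x, hx⟩ : T) = ∑ i, b.repr ⟨x, hx⟩ i • b i := (b.sum_repr _).symm
      have h3 : x = ∑ i, b.repr ⟨x, hx⟩ i • ((b i : T) : K) := by
        have h2' := congrArg (T.subtype) h2
        rw [map_sum] at h2'
        simp only [map_smul, Submodule.subtype_apply] at h2'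
        exact h2'
      rw [h3]
      apply Submodule.sum_mem
      intro i _
      have h4 : b.repr ⟨x, hx⟩ i • ((b i : T) : K)
          = (algebraMap F K₀ (b.repr ⟨x, hx⟩ i)) • ((b i : T) : K) := by
        rw [algebraMap_smul]
      rw [h4]
      exact Submodule.smul_mem _ _ (Submodule.subset_span ⟨i, rfl⟩)
    calc finrank K₀ (Submodule.span K₀ (T : Set K))
        ≤ finrank K₀ (Submodule.span K₀ (Set.range (fun i => ((b i : T) : K)))) :=
          Submodule.finrank_mono h1
      _ ≤ Fintype.card (Fin (finrank F T)) := finrank_range_le_card _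
      _ = finrank F T := Fintype.card_fin _
  have h1 := hf (Submodule.span K₀ (T : Set K)) (by omega)
  have e1 : ∀ W : Submodule F K, (if T ≤ W then trf K₀ f W else 0)
      = ∑ W' : Submodule K₀ K, (if res K₀ W' = W then (if T ≤ W then f W' else 0) else 0) := by
    intro W
    by_cases h : T ≤ W
    · simp only [h, if_true]
      rfl
    · simp [h]
  rw [Finset.sum_congr rfl (fun W _ => e1 W), Finset.sum_comm]
  refine Eq.trans ?_ h1
  apply Finset.sum_congr rfl
  intro W' _
  rw [Finset.sum_eq_single (res K₀ W')]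
  · rw [if_pos rfl]
    have : T ≤ res K₀ W' ↔ Submodule.span K₀ (T : Set K) ≤ W' := by
      rw [Submodule.span_le]
      exact Iff.rfl
    by_cases h : T ≤ res K₀ W'
    · rw [if_pos h, if_pos (this.1 h)]
    · rw [if_neg h, if_neg (fun h' => h (this.2 h'))]
  · intro W _ hW
    rw [if_neg (fun h => hW h.symm)]
  · intro h
    exact absurd (Finset.mem_univ _) h

end Pool.Agent.H14.Halv
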