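import Mathlib
import Pool.Agent.H14.Halv.Tower
import Pool.Agent.H14.Halv.Rho2
import Pool.Agent.H14.Halv.Middle

/-!
# Halving the middle layer: all `k` that are not powers of two

The self-dual part is treated by recursion along the tower of quadratic extensions.
-/

set_option autoImplicit false
set_option linter.unusedSectionVars false
set_option linter.unusedVariables false
set_option linter.style.haveILetI false

open Module
open scoped Classical
open Pool.Agent.H24.LS

namespace Pool.Agent.H14.Halv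

/-- `W` is self-dual up to a multiplier -/
def SD {F : Type} [Field F] [Finite F] {K : Type} [Field K] [Algebra F K] [Finite K]
    (W : Submodule F K) : Prop := ∃ u : Kˣ, tw u W = perp W

section Part

variable {F : Type} [Field F] [Finite F] {K : Type} [Field K] [Algebra F K] [Finite K]

/-- value of the `ρ`-weighted sum of the signs -/
lemma part_val {k : ℕ} (hK : finrank F K = 2 * k) (ρ : Kˣ → ℤ) (X : Kˣ → Submodule F K)
    (x2 : ∀ S : IntermediateField F K, finrank F S ∣ k → ∀ μ v : Kˣ,
        (v : K) * ((μ⁻¹ : Kˣ) : K) ∈ S → X v = X μ) (W : Submodule F K) (hWk : finrank F W = k)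
    (u : Kˣ) (hu : tw u W = perp W) :
    ∑ μ : Kˣ, ρ μ * cs k X μ W = (-1 : ℤ) ^ finrank F (W ⊓ X u : Submodule F K) *
      ∑ v : Kˣ, (if ((v : K) * ((u⁻¹ : Kˣ) : K) ∈ multField W) then ρ v else 0) := by
  have hdvd : finrank F (multField W) ∣ k := by
    rw [← hWk]; exact finrank_multField_dvd W
  have hTS : ∀ v : Kˣ, TS F (v : K) W ↔ (v : K) * ((u⁻¹ : Kˣ) : K) ∈ multField W := by
    intro v
    rw [TS_iff hK v W hWk, ← hu]
    have e1 : ((v : K) * ((u⁻¹ : Kˣ) : K)) = ((u⁻¹ * v : Kˣ) : K) := by
      rw [Units.val_mul, mul_comm]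
    rw [e1, ← tw_eq_iff_mem]
    constructor
    · intro h
      rw [tw_mul, h, ← tw_mul, inv_mul_cancel, tw_one]
    · intro h
      have : v = u * (u⁻¹ * v) := by rw [← mul_assoc, mul_inv_cancel, one_mul]
      rw [this, tw_mul, h]
  have hval : ∀ v : Kˣ, ρ v * cs k X v W
      = (-1 : ℤ) ^ finrank F (W ⊓ X u : Submodule F K) *
        (if ((v : K) * ((u⁻¹ : Kˣ) : K) ∈ multField W) then ρ v else 0) := by
    intro v
    unfold cs
    by_cases hv : (v : K) * ((u⁻¹ : Kˣ) : K) ∈ multField W
    · rw [if_pos ⟨hWk, (hTS v).2 hv⟩, if_pos hv, x2 (multField W) hdvd u v hv, mul_comm]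
    · rw [if_neg (fun h => hv ((hTS v).1 h.2)), if_neg hv, mul_zero, mul_zero]
  rw [Finset.sum_congr rfl (fun v _ => hval v), ← Finset.mul_sum]

lemma part_zero {k : ℕ} (hK : finrank F K = 2 * k) (ρ : Kˣ → ℤ) (X : Kˣ → Submodule F K)
    (W : Submodule F K) (h : ¬ (finrank F W = k ∧ SD W)) :
    ∑ μ : Kˣ, ρ μ * cs k X μ W = 0 := by
  apply Finset.sum_eq_zero
  intro μ _
  have : cs k X μ W = 0 := by
    unfold cs
    rw [if_neg]
    rintro ⟨h1, h2⟩
    exact h ⟨h1, μ, (TS_iff hK μ W h1).1 h2⟩
  rw [this, mul_zero]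

end Part

theorem self_dual_part : ∀ k : ℕ, ∀ (F : Type) [Field F] [Finite F] (K : Type) [Field K]
    [Algebra F K] [Finite K], Odd (Nat.card F) → finrank F K = 2 * k → (∀ n, k ≠ 2 ^ n) →
    ∃ Ψ : Submodule F K → ℤ, Null 3 Ψ ∧
      (∀ W : Submodule F K, finrank F W = k → SD W → Ψ W = 1 ∨ Ψ W = -1) ∧
      (∀ W : Submodule F K, ¬ (finrank F W = k ∧ SD W) → Ψ W = 0) := by
  intro k
  induction k using Nat.strong_induction_on with
  | _ k ih =>
    intro F _ _ K _ _ _ hq hK hk2
    have : FiniteDimensional F K := inferInstance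
    have hpos : 0 < finrank F K := finrank_pos
    have hk3 : 3 ≤ k := by
      by_contra h
      have h0 : k ≠ 0 := by omega
      have h1 : k ≠ 1 := hk2 0
      have h2 : k ≠ 2 := hk2 1
      omega
    obtain ⟨ρ, hρ⟩ := exists_rho2 F K hq
    obtain ⟨X, x1, x2⟩ := exists_base (F := F) (K := K) hq hK
    have hnull : Null 3 (fun W => ∑ μ : Kˣ, ρ μ * cs k X μ W) := by
      have := Null_sum (s := k) Finset.univ (fun μ : Kˣ => cs k X μ) ρ
        (fun μ _ => cs_null hq hK X x1 μ)
      intro T hT
      exact this T (by omega)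
    -- value in the two cases
    have hoddv : ∀ W : Submodule F K, finrank F W = k → SD W → Odd (finrank F (multField W)) →
        ∑ μ : Kˣ, ρ μ * cs k X μ W = 1 ∨ ∑ μ : Kˣ, ρ μ * cs k X μ W = -1 := by
      rintro W hWk ⟨u, hu⟩ hodd
      rw [part_val hK ρ X x2 W hWk u hu]
      rcases (hρ (multField W) u).1 hodd with h1 | h1 <;> rw [h1] <;>
        rcases neg_one_pow_eq_or ℤ (finrank F (W ⊓ X u : Submodule F K)) with h2 | h2 <;>
        rw [h2] <;> norm_num
    have hevenv : ∀ W : Submodule F K, finrank F W = k → SD W → Even (finrank F (multField W)) →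
        ∑ μ : Kˣ, ρ μ * cs k X μ W = 0 := by
      rintro W hWk ⟨u, hu⟩ heven
      rw [part_val hK ρ X x2 W hWk u hu, (hρ (multField W) u).2 heven, mul_zero]
    rcases Nat.even_or_odd k with hke | hko
    · -- `k` even: recursion over the quadratic subextension
      obtain ⟨m, hm⟩ := hke
      have hm' : k = 2 * m := by omega
      obtain ⟨K₀, g1, g2, g3⟩ := exists_quadratic (F := F) (K := K) hK
      have hqK₀ : Odd (Nat.card K₀) := by
        rw [Module.natCard_eq_pow_finrank (K := F) (V := K₀), g1]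
        exact hq.pow
      obtain ⟨Ψ', p1, p2, p3⟩ := ih m (by omega) K₀ K hqK₀ (by rw [g2, hm']) (by
        intro n hn
        exact hk2 (n + 1) (by rw [hm', hn, pow_succ]; ring))
      have hSDres : ∀ W' : Submodule K₀ K, (finrank F (res K₀ W') = k ∧ SD (res K₀ W')) ↔
          (finrank K₀ W' = m ∧ SD W') := by
        intro W'
        have h1 : finrank F (res K₀ W') = k ↔ finrank K₀ W' = m := by
          rw [finrank_res, g1]
          omega
        have h2 : SD (res K₀ W') ↔ SD W' := by
          constructor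
          · rintro ⟨u, hu⟩
            refine ⟨u, ?_⟩
            apply res_injective K₀
            rw [res_tw, res_perp, hu]
          · rintro ⟨u, hu⟩
            refine ⟨u, ?_⟩
            rw [← res_tw, ← res_perp, hu]
        rw [h1, h2]
      refine ⟨fun W => (∑ μ : Kˣ, ρ μ * cs k X μ W) + trf K₀ Ψ' W, ?_, ?_, ?_⟩
      · exact Null_add hnull (trf_null K₀ Ψ' p1)
      · intro W hWk hSD
        show (∑ μ : Kˣ, ρ μ * cs k X μ W) + trf K₀ Ψ' W = 1 ∨
          (∑ μ : Kˣ, ρ μ * cs k X μ W) + trf K₀ Ψ' W = -1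
        rcases Nat.even_or_odd (finrank F (multField W)) with he | ho
        · obtain ⟨W', rfl⟩ := exists_res K₀ W (g3 _ he)
          obtain ⟨r1, r2⟩ := (hSDres W').1 ⟨hWk, hSD⟩
          rw [hevenv _ hWk hSD he, zero_add, trf_res]
          exact p2 W' r1 r2
        · have h0 : trf K₀ Ψ' W = 0 := by
            apply trf_eq_zero
            intro W' hW'
            exfalso
            have hle : K₀ ≤ multField W := by
              rw [← hW']
              exact le_multField_res K₀ W'
            have hdvd : finrank F K₀ ∣ finrank F (multField W) :=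
              IntermediateField.finrank_dvd_of_le_right hle
            rw [g1] at hdvd
            exact (Nat.not_even_iff_odd.2 ho) (even_iff_two_dvd.2 hdvd)
          rw [h0, add_zero]
          exact hoddv W hWk hSD ho
      · intro W hW
        show (∑ μ : Kˣ, ρ μ * cs k X μ W) + trf K₀ Ψ' W = 0
        rw [part_zero hK ρ X W hW, zero_add]
        apply trf_eq_zero
        intro W' hW'
        apply p3
        intro h
        apply hW
        rw [← hW']
        exact (hSDres W').2 h
    · refine ⟨fun W => ∑ μ : Kˣ, ρ μ * cs k X μ W, hnull, ?_, ?_⟩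
      · intro W hWk hSD
        apply hoddv W hWk hSD
        have hdvd : finrank F (multField W) ∣ k := by
          rw [← hWk]; exact finrank_multField_dvd W
        exact Odd.of_dvd_nat hko hdvd
      · intro W hW
        exact part_zero hK ρ X W hW

section

variable {F : Type} [Field F] [Finite F] {K : Type} [Field K] [Algebra F K] [Finite K]

/-- The middle layer, `k` not a power of two. -/
theorem middle2 {k : ℕ} (hq : Odd (Nat.card F)) (hk2 : ∀ n, k ≠ 2 ^ n)
    (hK : finrank F K = 2 * k) : Halv 3 (Gr F k K) := by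
  obtain ⟨φ, f1, f2, f3, f4, f5⟩ := exists_orbit_sign (F := F) (K := K) hK
  obtain ⟨Ψ, p1, p2, p3⟩ := self_dual_part k F K hq hK hk2
  refine ⟨fun W => φ W + Ψ W, ?_, ?_, ?_⟩
  · intro W hW
    have hWk : finrank F W = k := hW
    show φ W + Ψ W = 1 ∨ φ W + Ψ W = -1
    by_cases h : SD W
    · rw [f4 W hWk h, zero_add]
      exact p2 W hWk h
    · rw [p3 W (fun h' => h h'.2), add_zero]
      exact f5 W hWk h
  · intro W hW
    have hWk : ¬ finrank F W = k := hW
    show φ W + Ψ W = 0
    have h1 : φ W = 0 := by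
      by_contra h
      exact hWk (f1 W h)
    rw [h1, p3 W (fun h' => hWk h'.1), add_zero]
  · exact Null_add (null_of_anti hK φ f1 f2 f3) p1

/-- The middle layer in coordinates. -/
theorem L_middle2 (hq : Odd (Nat.card F)) (k : ℕ) (hk0 : 0 < k) (hk2 : ∀ n, k ≠ 2 ^ n) :
    L F 3 k (2 * k) := by
  obtain ⟨p, hp⟩ := CharP.exists F
  haveI : Fact p.Prime := ⟨(CharP.char_is_prime F p)⟩
  haveI : NeZero (2 * k) := ⟨by omega⟩
  have hfr : finrank F (FiniteField.Extension F p (2 * k)) = 2 * k :=
    FiniteField.finrank_extension F p (2 * k)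
  exact L.ofV hfr (middle2 hq hk2 hfr)

end

end Pool.Agent.H14.Halv
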