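import Mathlib
import Pool.Agent.H14.Halv.SelfDual
import Pool.Agent.H14.Halv.Rec

/-!
# Final assembly for `t = 2`
-/

set_option autoImplicit false

open Module
open Pool.Agent.H24.LS

namespace Pool.Agent.H14.Halv

/-- The family of halvings for `t = 2`. -/
theorem family (F : Type) [Field F] [Finite F] (hq : Odd (Nat.card F)) (e l k v : ℕ)
    (he : 1 ≤ e) (hel : e < l) (h1 : v % 2 ^ e < k % 2 ^ e) (h2 : 2 ^ e ≤ v % 2 ^ l)
    (h3 : v % 2 ^ l < k % 2 ^ l) (hkv : k ≤ v) : HalvProp F 2 k v := by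
  have hpe : 2 ^ 1 ≤ 2 ^ e := Nat.pow_le_pow_right (by norm_num) he
  have hk2 : 2 < k := by
    have : k % 2 ^ l ≤ k := Nat.mod_le _ _
    omega
  rw [← L_iff hk2.le hkv]
  exact good_family hq (fun k hk0 hk2 => L_middle2 hq k hk0 hk2) v k ⟨e, l, he, hel, h1, h2, h3⟩

/-- The middle layers. -/
theorem middle_halv (F : Type) [Field F] [Finite F] (hq : Odd (Nat.card F)) (k : ℕ) (hk : 2 ≤ k)
    (hk2 : ∀ n, k ≠ 2 ^ n) : HalvProp F 2 k (2 * k) := by
  rw [← L_iff hk (by omega)]
  exact L_middle2 hq k (by omega) hk2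

/-- The reduction for `t = 2` to the roots `(2 ^ n, 2 ^ (n + 1) + 2)`, `n ≥ 2`. -/
theorem reduction_two (F : Type) [Field F] [Finite F]
    (hroot : ∀ n : ℕ, 2 ≤ n →
      Adm F 2 (2 ^ n) (2 ^ (n + 1) + 2) → HalvProp F 2 (2 ^ n) (2 ^ (n + 1) + 2)) :
    ∀ k v : ℕ, 2 < k → k ≤ v → Adm F 2 k v → HalvProp F 2 k v := by
  refine roots_suffice F 2 ?_
  intro n j hj hn hadm
  have hj01 : j = 0 ∨ j = 1 := by omega
  rcases hj01 with rfl | rfl
  · refine hroot n ?_ hadm
    by_contra h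
    have : n = 0 ∨ n = 1 := by omega
    rcases this with rfl | rfl <;> simp at hn
  · have hn1 : 1 ≤ n := by
      by_contra h
      have : n = 0 := by omega
      subst this
      simp at hn
    have hq : Odd (Nat.card F) := (adm_level hn (by
      have : 2 ^ (n + 1) = 2 * 2 ^ n := pow_succ' 2 n
      omega) hadm).1
    have e1 : 2 ^ (n + 1) + 2 = 2 * (2 ^ n + 1) := by ring
    rw [e1]
    apply middle_halv F hq _ hn.le
    intro m hm
    have hev : Even (2 ^ n) := Nat.even_pow.2 ⟨even_two, by omega⟩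
    have hodd : Odd (2 ^ m) := by
      rw [← hm]
      exact hev.add_one
    have hm0 : m = 0 := by
      by_contra h
      exact (Nat.not_odd_iff_even.2 (Nat.even_pow.2 ⟨even_two, h⟩)) hodd
    subst hm0
    simp at hm

end Pool.Agent.H14.Halv
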